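import Pool.Agent.Lib_MP_d26ff6_al.Main

/-!
Descent of a common slot (total element) along a quadratic extension `K = F(√x)`
(structures with `-1 = 1` and `I³ = 0`): definitions.  Part of the ETC-FIELD campaign
(problem MP_d26ff6_al), after notes 1556, 1564, 1580.
-/

set_option autoImplicit false

namespace Pool.Agent.DSC

open CommonSlot

section
variable {V B : Type} [AddCommGroup V] [Module (ZMod 2) V] [AddCommGroup B] [Module (ZMod 2) B]

/-- the rank `r(y) = dim q(y, V)` -/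
noncomputable def rk (q : V →ₗ[ZMod 2] V →ₗ[ZMod 2] B) (y : V) : ℕ :=
  Module.finrank (ZMod 2) (LinearMap.range (q y))

/-- component of local type: `π` is a projection onto `{0, c}`, `c ≠ 0` -/
def IsLoc (π : B →ₗ[ZMod 2] B) : Prop :=
  ∃ c, c ≠ 0 ∧ π c = c ∧ ∀ b, π b = 0 ∨ π b = c

/-- component `D[t]`, `dim D ≥ 2`, `D` totally degenerate; `D = {d : p d = d, τ d = 0}` -/
def IsFan (q : V →ₗ[ZMod 2] V →ₗ[ZMod 2] B) (p : V →ₗ[ZMod 2] V) (π : B →ₗ[ZMod 2] B) : Prop :=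
  ∃ (τ : V →ₗ[ZMod 2] ZMod 2) (t : V), τ t = 1 ∧ p t = t ∧ (∀ v, τ (p v) = τ v) ∧
    (∀ d d', τ d = 0 → τ d' = 0 → q (p d) (p d') = 0) ∧
    (∀ b, ∃ d, τ d = 0 ∧ p d = d ∧ q t d = π b) ∧
    ∃ d₁ d₂, τ d₁ = 0 ∧ τ d₂ = 0 ∧ p d₁ = d₁ ∧ p d₂ = d₂ ∧ d₁ ≠ 0 ∧ d₂ ≠ 0 ∧ d₁ ≠ d₂

/-- decomposition of `(V, B, q)` into local components and components `D[t]` -/
structure Dec (q : V →ₗ[ZMod 2] V →ₗ[ZMod 2] B) (k : ℕ) where
  p : Fin k → (V →ₗ[ZMod 2] V)
  π : Fin k → (B →ₗ[ZMod 2] B)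
  cen : ∀ j v w, q (p j v) w = π j (q v w)
  sum_p : ∀ v, ∑ j, p j v = v
  sum_π : ∀ b, ∑ j, π j b = b
  orth : ∀ i j, i ≠ j → ∀ b, π i (π j b) = 0
  typ : ∀ j, IsLoc (π j) ∨ IsFan q (p j) (π j)

end

/-- A quadratic extension `K = F(√x)` (`-1 = 1`, `I³ = 0`): `V = F*/F*²`, `B = I²F`, `q` the
symbol, `V' = K*/K*²`, `B' = I²K`, `res`, `resB` scalar extension, `N` the norm, `cor` the
transfer, `σ`, `s` the conjugation. -/
structure QExt (V B V' B' : Type) [AddCommGroup V] [Module (ZMod 2) V] [AddCommGroup B]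
    [Module (ZMod 2) B] [AddCommGroup V'] [Module (ZMod 2) V'] [AddCommGroup B']
    [Module (ZMod 2) B'] where
  q : V →ₗ[ZMod 2] V →ₗ[ZMod 2] B
  q' : V' →ₗ[ZMod 2] V' →ₗ[ZMod 2] B'
  res : V →ₗ[ZMod 2] V'
  resB : B →ₗ[ZMod 2] B'
  N : V' →ₗ[ZMod 2] V
  cor : B' →ₗ[ZMod 2] B
  σ : V' →ₗ[ZMod 2] V'
  s : B' →ₗ[ZMod 2] B'
  x : V
  /-- symmetric, alternating (`e = 0`), linked -/
  link : IsLinked q 0
  link' : IsLinked q' 0
  resq : ∀ v w, resB (q v w) = q' (res v) (res w)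
  σσ : ∀ v, σ (σ v) = v
  ss : ∀ b, s (s b) = b
  eqv : ∀ v w, q' (σ v) (σ w) = s (q' v w)
  /-- projection formula -/
  proj : ∀ v w, cor (q' (res v) w) = q v (N w)
  resN : ∀ w, res (N w) = w + σ w
  resx : res x = 0
  /-- the norms are the elements orthogonal to `x` -/
  rangeN : ∀ v, q x v = 0 ↔ ∃ w, N w = v
  rescor : ∀ b, resB (cor b) = b + s b
  corres : ∀ b, cor (resB b) = 0
  cor_surj : Function.Surjective cor
  kercor : ∀ b, cor b = 0 → ∃ c, resB c = b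
  kerresB : ∀ b, resB b = 0 ↔ ∃ v, q x v = b
  /-- norm principle -/
  np : ∀ y w, q y (N w) = 0 → ∃ f, q' (res y) w = q' (res y) (res f)
  /-- Rosset-Tate -/
  rt : ∀ w y, ∃ a b, cor (q' w y) = q (N w) a + q (N y) b

/-- The reduced form of a quadratic extension: `V'` is `V_K` modulo the radical, `N` is a linear
lift of the norm. -/
structure RExt (V B V' B' : Type) [AddCommGroup V] [Module (ZMod 2) V] [AddCommGroup B]
    [Module (ZMod 2) B] [AddCommGroup V'] [Module (ZMod 2) V'] [AddCommGroup B']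
    [Module (ZMod 2) B'] where
  q : V →ₗ[ZMod 2] V →ₗ[ZMod 2] B
  q' : V' →ₗ[ZMod 2] V' →ₗ[ZMod 2] B'
  res : V →ₗ[ZMod 2] V'
  N : V' →ₗ[ZMod 2] V
  cor : B' →ₗ[ZMod 2] B
  σ : V' →ₗ[ZMod 2] V'
  s : B' →ₗ[ZMod 2] B'
  x : V
  w0 : V'
  symm : ∀ v w, q v w = q w v
  alt : ∀ v, q v v = 0
  symm' : ∀ v w, q' v w = q' w v
  alt' : ∀ v, q' v v = 0
  nd : ∀ v, (∀ w, q' v w = 0) → v = 0
  σσ : ∀ v, σ (σ v) = v
  ss : ∀ b, s (s b) = b
  eqv : ∀ v w, q' (σ v) (σ w) = s (q' v w)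
  proj : ∀ v w, cor (q' (res v) w) = q v (N w)
  resN : ∀ w, res (N w) = w + σ w
  resx : res x = 0
  normx : ∀ v, q x v = cor (q' (res v) w0)
  σw0 : σ w0 = w0
  resrad : ∀ v, (∀ u, q v u = 0) → res v = 0
  cor_surj : Function.Surjective cor
  kercor : ∀ b, cor b = 0 → ∃ c, b = c + s c
  corker : ∀ c, cor (c + s c) = 0
  kerres : ∀ b, b + s b = 0 → ∃ v, cor b = q x v
  corres : ∀ v w, cor (q' (res v) (res w)) = 0
  rt : ∀ w y, ∃ a b, cor (q' w y) = q (N w) a + q (N y) b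
  /-- dimension formula `d'(res y) = d(y) + d(y + x)`, `d = dim B - r` -/
  dform : ∀ y, Module.finrank (ZMod 2) B' + rk q y + rk q (y + x) =
    2 * Module.finrank (ZMod 2) B + rk q' (res y)

/-! ### statements of the modules -/

/-- component form (uses only the library CommonSlot) -/
def Stmt_DEC : Prop := ∀ (V B : Type) [AddCommGroup V] [Module (ZMod 2) V] [AddCommGroup B]
    [Module (ZMod 2) B] [Finite V] (q : V →ₗ[ZMod 2] V →ₗ[ZMod 2] B), IsLinked q 0 →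
    (∀ a, (∀ b, q a b = 0) → a = 0) → (∃ x, Full q x) → ∃ k, Nonempty (Dec q k)

/-- the dimension formula (norm principle and linkage) -/
def Stmt_DFM : Prop := ∀ (V B V' B' : Type) [AddCommGroup V] [Module (ZMod 2) V] [AddCommGroup B]
    [Module (ZMod 2) B] [AddCommGroup V'] [Module (ZMod 2) V'] [AddCommGroup B']
    [Module (ZMod 2) B'] [Finite V] [Finite B] [Finite V'] [Finite B'] (E : QExt V B V' B')
    (y : V), Module.finrank (ZMod 2) B' + rk E.q y + rk E.q (y + E.x) =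
    2 * Module.finrank (ZMod 2) B + rk E.q' (E.res y)

/-- reduction modulo the radical of `q'` -/
def Stmt_RED : Prop := ∀ (V B V' B' : Type) [AddCommGroup V] [Module (ZMod 2) V] [AddCommGroup B]
    [Module (ZMod 2) B] [AddCommGroup V'] [Module (ZMod 2) V'] [AddCommGroup B']
    [Module (ZMod 2) B'] [Finite V] [Finite B] [Finite V'] [Finite B'] (E : QExt V B V' B'),
    (∃ t, Full E.q' t) → ∃ (W : Type) (_ : AddCommGroup W) (_ : Module (ZMod 2) W) (_ : Finite W)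
      (E' : RExt V B W B'), E'.q = E.q ∧ IsLinked E'.q' 0 ∧ ∃ t, Full E'.q' t

/-- the conjugation permutes the components -/
def Stmt_CEN : Prop := ∀ (V B V' B' : Type) [AddCommGroup V] [Module (ZMod 2) V] [AddCommGroup B]
    [Module (ZMod 2) B] [AddCommGroup V'] [Module (ZMod 2) V'] [AddCommGroup B']
    [Module (ZMod 2) B'] (E : RExt V B V' B') (k : ℕ) (C : Dec E.q' k), (∃ t, Full E.q' t) →
    ∃ τ : Fin k → Fin k, (∀ j, τ (τ j) = j) ∧ (∀ j v, E.σ (C.p j v) = C.p (τ j) (E.σ v)) ∧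
      (∀ j b, E.s (C.π j b) = C.π (τ j) (E.s b))

/-- Step 1: Hilbert 90 modulo the radical -/
def Stmt_S1 : Prop := ∀ (V B V' B' : Type) [AddCommGroup V] [Module (ZMod 2) V] [AddCommGroup B]
    [Module (ZMod 2) B] [AddCommGroup V'] [Module (ZMod 2) V'] [AddCommGroup B']
    [Module (ZMod 2) B'] [Finite V] [Finite B] [Finite V'] [Finite B'] (E : RExt V B V' B')
    (k : ℕ) (C : Dec E.q' k) (τ : Fin k → Fin k), (∃ t, Full E.q' t) → (∀ j, τ (τ j) = j) →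
    (∀ j v, E.σ (C.p j v) = C.p (τ j) (E.σ v)) → (∀ j b, E.s (C.π j b) = C.π (τ j) (E.s b)) →
    ∀ m, (∀ v, E.cor (E.q' (E.res v) m) = 0) → ∃ v, E.res v = m

/-- Step 2: a total element of `F` -/
def Stmt_S2 : Prop := ∀ (V B V' B' : Type) [AddCommGroup V] [Module (ZMod 2) V] [AddCommGroup B]
    [Module (ZMod 2) B] [AddCommGroup V'] [Module (ZMod 2) V'] [AddCommGroup B']
    [Module (ZMod 2) B'] [Finite V] [Finite B] [Finite V'] [Finite B'] (E : RExt V B V' B')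
    (k : ℕ) (C : Dec E.q' k) (τ : Fin k → Fin k), (∃ t, Full E.q' t) → (∀ j, τ (τ j) = j) →
    (∀ j v, E.σ (C.p j v) = C.p (τ j) (E.σ v)) → (∀ j b, E.s (C.π j b) = C.π (τ j) (E.s b)) →
    (∀ m, (∀ v, E.cor (E.q' (E.res v) m) = 0) → ∃ v, E.res v = m) → ∃ y, Full E.q y

/-- THE DESCENT: a total element of `K` gives a total element of `F`. -/
def Stmt_DSC : Prop := ∀ (V B V' B' : Type) [AddCommGroup V] [Module (ZMod 2) V] [AddCommGroup B]
    [Module (ZMod 2) B] [AddCommGroup V'] [Module (ZMod 2) V'] [AddCommGroup B']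
    [Module (ZMod 2) B'] [Finite V] [Finite B] [Finite V'] [Finite B'] (E : QExt V B V' B'),
    (∃ t, Full E.q' t) → ∃ y, Full E.q y

theorem dsc_of (h1 : Stmt_DEC) (h2 : Stmt_RED) (h3 : Stmt_CEN) (h4 : Stmt_S1) (h5 : Stmt_S2) :
    Stmt_DSC := by
  intro V B V' B' _ _ _ _ _ _ _ _ _ _ _ _ E ht
  obtain ⟨W, i1, i2, i3, E', hq, hl, ht'⟩ := h2 V B V' B' E ht
  obtain ⟨k, ⟨C⟩⟩ := h1 W B' E'.q' hl E'.nd ht'
  obtain ⟨τ, t1, t2, t3⟩ := h3 V B W B' E' k C ht'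
  have := h5 V B W B' E' k C τ ht' t1 t2 t3 (h4 V B W B' E' k C τ ht' t1 t2 t3)
  rwa [hq] at this

end Pool.Agent.DSC
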