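import Pool.Agent.DSC.Basic

/-!
DSC, module CEN: the conjugation permutes the components.
-/

set_option autoImplicit false

namespace Pool.Agent.DSC

open CommonSlot

theorem cen_proof : Stmt_CEN := by
  intro V B V' B' _ _ _ _ _ _ _ _ E k C hf
  -- the conjugate pair
  have hconj : ∀ j v w, E.q' ((E.σ ∘ₗ C.p j ∘ₗ E.σ) v) w = (E.s ∘ₗ C.π j ∘ₗ E.s) (E.q' v w) := by
    intro j v w
    simp only [LinearMap.comp_apply]
    calc E.q' (E.σ (C.p j (E.σ v))) w = E.q' (E.σ (C.p j (E.σ v))) (E.σ (E.σ w)) := by rw [E.σσ]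
      _ = E.s (C.π j (E.q' (E.σ v) (E.σ w))) := by rw [E.eqv, C.cen]
      _ = _ := by rw [E.eqv]
  have key : ∀ j, ∃ i, ∀ b, E.s (C.π j (E.s b)) = C.π i b := by
    intro j
    obtain ⟨b0, hb0⟩ := comp_ne C E.symm' E.nd j
    have h1 : E.s (C.π j (E.s (E.s b0))) ≠ 0 := by
      rw [E.ss]
      intro h
      apply hb0
      rw [← E.ss (C.π j b0), h, map_zero]
    obtain ⟨i, hi⟩ : ∃ i, E.s (C.π j (E.s (C.π i (E.s b0)))) ≠ 0 := by
      by_contra hc
      push Not at hc
      apply h1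
      rw [← C.sum_π (E.s b0), map_sum, map_sum, map_sum]
      exact Finset.sum_eq_zero fun i _ => hc i
    have h2 : ∀ b, E.s (C.π j (E.s (C.π i b))) = C.π i b := by
      rcases cen_scalar C E.symm' E.alt' E.nd hf (hconj j) i with h | h
      · exact absurd (h (E.s b0)) hi
      · exact h
    -- the conjugate of `π i` on the component `j`
    have h3 : ∀ b, C.π j (E.s (C.π i (E.s b))) = E.s (C.π i (E.s b)) := by
      intro b
      rw [← E.ss (C.π j (E.s (C.π i (E.s b)))), h2]
    have h4 : ∀ b, E.s (C.π i (E.s (C.π j b))) = E.s (C.π i (E.s b)) := by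
      intro b
      have := cen_comm E.symm' hf (hconj i) (C.cen j) b
      simp only [LinearMap.comp_apply] at this
      rw [this, h3]
    refine ⟨i, ?_⟩
    rcases cen_scalar C E.symm' E.alt' E.nd hf (hconj i) j with h | h
    · exfalso
      obtain ⟨b1, hb1⟩ := comp_ne C E.symm' E.nd i
      apply hb1
      have h5 := h (E.s b1)
      simp only [LinearMap.comp_apply] at h5
      rw [h4, E.ss] at h5
      rw [← E.ss (C.π i b1), h5, map_zero]
    · intro b
      have h5 : ∀ b, E.s (C.π i (E.s b)) = C.π j b := by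
        intro b
        rw [← h4]
        exact h b
      rw [← h5, E.ss, E.ss]
  choose τ hτ using key
  have hτ' : ∀ j b, E.s (C.π j b) = C.π (τ j) (E.s b) := by
    intro j b
    rw [← hτ, E.ss]
  refine ⟨τ, ?_, ?_, hτ'⟩
  · intro j
    by_contra hne
    obtain ⟨b, hb⟩ := comp_ne C E.symm' E.nd j
    apply hb
    have h1 : C.π (τ (τ j)) b = C.π j b := by
      rw [← hτ (τ j), ← hτ' j b, E.ss]
    rw [← C.idem, ← h1, C.orth j _ (Ne.symm hne)]
  · intro j v
    apply eq_of_add_eq_zero'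
    apply E.nd
    intro w
    rw [map_add, LinearMap.add_apply, C.cen]
    have h1 : E.q' (E.σ (C.p j v)) w = C.π (τ j) (E.q' (E.σ v) w) := by
      calc E.q' (E.σ (C.p j v)) w = E.q' (E.σ (C.p j v)) (E.σ (E.σ w)) := by rw [E.σσ]
        _ = E.s (C.π j (E.q' v (E.σ w))) := by rw [E.eqv, C.cen]
        _ = C.π (τ j) (E.q' (E.σ v) (E.σ (E.σ w))) := by rw [hτ', E.eqv]
        _ = _ := by rw [E.σσ]
    rw [h1, ZModModule.add_self]

end Pool.Agent.DSC
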