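import Pool.Agent.DSC.Defs

/-!
DSC: DFM, the dimension formula (norm principle and linkage).
-/

set_option autoImplicit false

namespace Pool.Agent.DSC

open CommonSlot

namespace DFM_

/-- rank and nullity on a subspace -/
theorem rn {M N : Type} [AddCommGroup M] [Module (ZMod 2) M] [AddCommGroup N] [Module (ZMod 2) N]
    [Module.Finite (ZMod 2) M] (f : M →ₗ[ZMod 2] N) (S : Submodule (ZMod 2) M) :
    Module.finrank (ZMod 2) (S.map f) +
      Module.finrank (ZMod 2) (S ⊓ LinearMap.ker f : Submodule (ZMod 2) M) =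
      Module.finrank (ZMod 2) S := by
  have h := LinearMap.finrank_range_add_finrank_ker (f.domRestrict S)
  rw [LinearMap.range_domRestrict] at h
  have h1 : LinearMap.ker (f.domRestrict S) = (LinearMap.ker f).comap S.subtype := by
    ext v
    simp
  have h2 := Submodule.finrank_map_subtype_eq S ((LinearMap.ker f).comap S.subtype)
  rw [Submodule.map_comap_subtype] at h2
  rw [h1, ← h2] at h
  exact h

end DFM_

open DFM_ in
theorem dfm_proof : Stmt_DFM := by
  intro V B V' B' _ _ _ _ _ _ _ _ _ _ _ _ E y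
  have hV : Module.Finite (ZMod 2) V := Module.Finite.of_finite
  have hB : Module.Finite (ZMod 2) B := Module.Finite.of_finite
  have hV' : Module.Finite (ZMod 2) V' := Module.Finite.of_finite
  have hB' : Module.Finite (ZMod 2) B' := Module.Finite.of_finite
  have two : ∀ b : B, b + b = 0 := fun b => ZModModule.add_self b
  -- the kernel of the scalar extension
  have e1 : LinearMap.ker E.resB = LinearMap.range (E.q E.x) := by
    ext b
    rw [LinearMap.mem_ker, E.kerresB, LinearMap.mem_range]
  have e2 : LinearMap.ker E.cor = LinearMap.range E.resB := by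
    ext b
    rw [LinearMap.mem_ker, LinearMap.mem_range]
    constructor
    · exact E.kercor b
    · rintro ⟨c, rfl⟩
      exact E.corres c
  have e3 : (LinearMap.range (E.q' (E.res y))).map E.cor = (LinearMap.ker (E.q E.x)).map (E.q y) := by
    ext b
    simp only [Submodule.mem_map, LinearMap.mem_range, LinearMap.mem_ker]
    constructor
    · rintro ⟨_, ⟨w, rfl⟩, rfl⟩
      exact ⟨E.N w, (E.rangeN _).2 ⟨w, rfl⟩, (E.proj y w).symm⟩
    · rintro ⟨v, hv, rfl⟩
      obtain ⟨w, rfl⟩ := (E.rangeN v).1 hv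
      exact ⟨_, ⟨w, rfl⟩, E.proj y w⟩
  have e4 : LinearMap.range (E.q' (E.res y)) ⊓ LinearMap.ker E.cor =
      (LinearMap.range (E.q y)).map E.resB := by
    ext b
    simp only [Submodule.mem_inf, Submodule.mem_map, LinearMap.mem_range, LinearMap.mem_ker]
    constructor
    · rintro ⟨⟨w, rfl⟩, h⟩
      rw [E.proj] at h
      obtain ⟨f, hf⟩ := E.np y w h
      exact ⟨_, ⟨f, rfl⟩, by rw [E.resq, hf]⟩
    · rintro ⟨_, ⟨f, rfl⟩, rfl⟩
      exact ⟨⟨E.res f, (E.resq y f).symm⟩, E.corres _⟩
  have e5 : (LinearMap.ker (E.q (y + E.x))).map (E.q E.x) =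
      LinearMap.range (E.q y) ⊓ LinearMap.range (E.q E.x) := by
    ext b
    simp only [Submodule.mem_inf, Submodule.mem_map, LinearMap.mem_range, LinearMap.mem_ker]
    constructor
    · rintro ⟨v, hv, rfl⟩
      refine ⟨⟨v, ?_⟩, ⟨v, rfl⟩⟩
      rw [map_add, LinearMap.add_apply] at hv
      have h1 : E.q y v + E.q E.x v + E.q E.x v = E.q E.x v := by rw [hv, zero_add]
      rwa [add_assoc, two, add_zero] at h1
    · rintro ⟨⟨v, hv⟩, ⟨w, hw⟩⟩
      obtain ⟨f, h1, h2⟩ := E.link.link E.x w y v (by rw [hw, hv])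
      refine ⟨f, ?_, by rw [h1, hw]⟩
      rw [map_add, LinearMap.add_apply, h1, h2, two]
  have e6 : LinearMap.ker (E.q (y + E.x)) ⊓ LinearMap.ker (E.q E.x) =
      LinearMap.ker (E.q E.x) ⊓ LinearMap.ker (E.q y) := by
    ext v
    simp only [Submodule.mem_inf, LinearMap.mem_ker]
    rw [map_add, LinearMap.add_apply]
    constructor
    · rintro ⟨h1, h2⟩
      rw [h2, add_zero] at h1
      exact ⟨h2, h1⟩
    · rintro ⟨h1, h2⟩
      rw [h1, h2, add_zero]
      exact ⟨rfl, rfl⟩
  have f1 := rn E.cor (LinearMap.range (E.q' (E.res y)))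
  rw [e3, e4] at f1
  have f2 := rn (E.q y) (LinearMap.ker (E.q E.x))
  have f3 := rn E.resB (LinearMap.range (E.q y))
  rw [e1] at f3
  have f4 := rn (E.q E.x) (LinearMap.ker (E.q (y + E.x)))
  rw [e5, e6] at f4
  have f5 := LinearMap.finrank_range_add_finrank_ker E.cor
  rw [LinearMap.range_eq_top.2 E.cor_surj, finrank_top, e2] at f5
  have f6 := LinearMap.finrank_range_add_finrank_ker E.resB
  rw [e1] at f6
  have f7 := LinearMap.finrank_range_add_finrank_ker (E.q E.x)
  have f8 := LinearMap.finrank_range_add_finrank_ker (E.q (y + E.x))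
  unfold rk
  omega

end Pool.Agent.DSC
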