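import Pool.Agent.DSC.Defs

/-!
Reduction of a quadratic extension modulo the radical of `q'`.
-/

set_option autoImplicit false

namespace Pool.Agent.DSC

open CommonSlot

namespace RED_

section
variable {V B V' B' : Type} [AddCommGroup V] [Module (ZMod 2) V] [AddCommGroup B]
    [Module (ZMod 2) B] [AddCommGroup V'] [Module (ZMod 2) V'] [AddCommGroup B']
    [Module (ZMod 2) B']

theorem two_add {M : Type} [AddCommGroup M] [Module (ZMod 2) M] (m : M) : m + m = 0 := by
  have : (2 : ZMod 2) • m = m + m := two_smul _ m
  rw [← this, show (2 : ZMod 2) = 0 from rfl, zero_smul]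

theorem eq_of_add {M : Type} [AddCommGroup M] [Module (ZMod 2) M] {m n : M} (h : m + n = 0) :
    n = m := by
  have h2 := two_add m
  have : m + n = m + m := by rw [h, h2]
  exact add_left_cancel this

/-- the radical of `q'` -/
abbrev rad (E : QExt V B V' B') : Submodule (ZMod 2) V' := LinearMap.ker E.q'

theorem mem_rad (E : QExt V B V' B') {v : V'} : v ∈ rad E ↔ ∀ w, E.q' v w = 0 := by
  rw [LinearMap.mem_ker]
  exact ⟨fun h w => by rw [h]; rfl, fun h => LinearMap.ext h⟩

/-- `W` -/
abbrev W (E : QExt V B V' B') : Type := V' ⧸ rad E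

theorem symm' (E : QExt V B V' B') (v w : V') : E.q' v w = E.q' w v := E.link'.symm v w

/-- the induced form -/
def qW (E : QExt V B V' B') : W E →ₗ[ZMod 2] W E →ₗ[ZMod 2] B' :=
  (rad E).liftQ
    { toFun := fun v => (rad E).liftQ (E.q' v) (fun w hw => by
        rw [LinearMap.mem_ker, symm' E]
        exact (mem_rad E).1 hw v)
      map_add' := fun a b => by
        apply Submodule.linearMap_qext
        ext w
        simp
      map_smul' := fun c a => by
        apply Submodule.linearMap_qext
        ext w
        simp }
    (fun v hv => by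
      rw [LinearMap.mem_ker]
      apply Submodule.linearMap_qext
      ext w
      simp only [LinearMap.coe_mk, AddHom.coe_mk, LinearMap.comp_apply, Submodule.mkQ_apply,
        Submodule.liftQ_apply, LinearMap.zero_apply]
      exact (mem_rad E).1 hv w)

theorem qW_mk (E : QExt V B V' B') (v w : V') :
    qW E (Submodule.Quotient.mk v) (Submodule.Quotient.mk w) = E.q' v w := rfl

theorem σ_rad (E : QExt V B V' B') {v : V'} (hv : v ∈ rad E) : E.σ v ∈ rad E := by
  rw [mem_rad] at hv ⊢
  intro w
  have h := E.eqv v (E.σ w)
  rw [E.σσ] at h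
  rw [h, hv, map_zero]

/-- the induced conjugation -/
def σW (E : QExt V B V' B') : W E →ₗ[ZMod 2] W E :=
  (rad E).mapQ (rad E) E.σ (fun _ hv => σ_rad E hv)

theorem σW_mk (E : QExt V B V' B') (v : V') :
    σW E (Submodule.Quotient.mk v) = Submodule.Quotient.mk (E.σ v) := rfl

theorem sec_exists (E : QExt V B V' B') :
    ∃ f : W E →ₗ[ZMod 2] V', ∀ w, (Submodule.Quotient.mk (f w) : W E) = w := by
  obtain ⟨f, hf⟩ := LinearMap.exists_rightInverse_of_surjective (rad E).mkQ
    (LinearMap.range_eq_top.2 (Submodule.mkQ_surjective _))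
  exact ⟨f, fun w => by
    have := LinearMap.congr_fun hf w
    simpa using this⟩

theorem rk_eq (E : QExt V B V' B') (v : V') :
    rk (qW E) (Submodule.Quotient.mk v) = rk E.q' v := by
  unfold rk
  have : LinearMap.range (qW E (Submodule.Quotient.mk v)) = LinearMap.range (E.q' v) := by
    ext b
    simp only [LinearMap.mem_range]
    constructor
    · rintro ⟨w, rfl⟩
      obtain ⟨w, rfl⟩ := Submodule.Quotient.mk_surjective _ w
      exact ⟨w, rfl⟩
    · rintro ⟨w, rfl⟩
      exact ⟨Submodule.Quotient.mk w, rfl⟩
  rw [this]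

end

end RED_

open RED_ in
theorem red_proof (hDFM : Stmt_DFM) : Stmt_RED := by
  intro V B V' B' _ _ _ _ _ _ _ _ _ _ _ _ E ht
  obtain ⟨f, hf⟩ := sec_exists E
  have alt : ∀ v, E.q v v = 0 := fun v => by rw [E.link.diag, map_zero]
  have alt' : ∀ v, E.q' v v = 0 := fun v => by rw [E.link'.diag, map_zero]
  obtain ⟨w₀, hw₀⟩ := (E.rangeN E.x).1 (alt E.x)
  have hσw : E.σ w₀ = w₀ := by
    have h := E.resN w₀
    rw [hw₀, E.resx] at h
    exact eq_of_add h.symm
  have hfin : Finite (W E) := Finite.of_surjective _ (Submodule.mkQ_surjective (rad E))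
  let E' : RExt V B (W E) B' :=
    { q := E.q
      q' := qW E
      res := (rad E).mkQ ∘ₗ E.res
      N := E.N ∘ₗ f
      cor := E.cor
      σ := σW E
      s := E.s
      x := E.x
      w0 := Submodule.Quotient.mk w₀
      symm := E.link.symm
      alt := alt
      symm' := by
        intro v w
        obtain ⟨v, rfl⟩ := Submodule.Quotient.mk_surjective _ v
        obtain ⟨w, rfl⟩ := Submodule.Quotient.mk_surjective _ w
        rw [qW_mk, qW_mk]
        exact symm' E v w
      alt' := by
        intro v
        obtain ⟨v, rfl⟩ := Submodule.Quotient.mk_surjective _ v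
        rw [qW_mk]
        exact alt' v
      nd := by
        intro v hv
        obtain ⟨v, rfl⟩ := Submodule.Quotient.mk_surjective _ v
        rw [Submodule.Quotient.mk_eq_zero, mem_rad]
        intro w
        exact hv (Submodule.Quotient.mk w)
      σσ := by
        intro v
        obtain ⟨v, rfl⟩ := Submodule.Quotient.mk_surjective _ v
        rw [σW_mk, σW_mk, E.σσ]
      ss := E.ss
      eqv := by
        intro v w
        obtain ⟨v, rfl⟩ := Submodule.Quotient.mk_surjective _ v
        obtain ⟨w, rfl⟩ := Submodule.Quotient.mk_surjective _ w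
        rw [σW_mk, σW_mk, qW_mk, qW_mk]
        exact E.eqv v w
      proj := by
        intro v w
        have h : qW E (((rad E).mkQ ∘ₗ E.res) v) w = E.q' (E.res v) (f w) := by
          conv_lhs => rw [← hf w]
          rfl
        rw [h]
        exact E.proj v (f w)
      resN := by
        intro w
        show (Submodule.Quotient.mk (E.res (E.N (f w))) : W E) = w + σW E w
        rw [E.resN, Submodule.Quotient.mk_add, ← σW_mk, hf]
      resx := by
        show (Submodule.Quotient.mk (E.res E.x) : W E) = 0
        rw [E.resx, Submodule.Quotient.mk_zero]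
      normx := by
        intro v
        show E.q E.x v = E.cor (E.q' (E.res v) w₀)
        rw [E.proj, hw₀, E.link.symm]
      σw0 := by
        rw [σW_mk, hσw]
      resrad := by
        intro v hv
        show (Submodule.Quotient.mk (E.res v) : W E) = 0
        rw [Submodule.Quotient.mk_eq_zero, mem_rad]
        intro w
        obtain ⟨g, hg⟩ := E.np v w (hv _)
        rw [hg, ← E.resq, hv, map_zero]
      cor_surj := E.cor_surj
      kercor := by
        intro b hb
        obtain ⟨c, hc⟩ := E.kercor b hb
        obtain ⟨d, hd⟩ := E.cor_surj c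
        exact ⟨d, by rw [← hc, ← hd, E.rescor]⟩
      corker := by
        intro c
        rw [← E.rescor, E.corres]
      kerres := by
        intro b hb
        rw [← E.rescor] at hb
        obtain ⟨v, hv⟩ := (E.kerresB _).1 hb
        exact ⟨v, hv.symm⟩
      corres := by
        intro v w
        show E.cor (E.q' (E.res v) (E.res w)) = 0
        rw [← E.resq, E.corres]
      rt := by
        intro w y
        have h : qW E w y = E.q' (f w) (f y) := by
          conv_lhs => rw [← hf w, ← hf y]
          rfl
        rw [h]
        exact E.rt (f w) (f y)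
      dform := by
        intro y
        have h := hDFM V B V' B' E y
        have h2 : rk (qW E) (((rad E).mkQ ∘ₗ E.res) y) = rk E.q' (E.res y) := rk_eq E (E.res y)
        rw [h2]
        exact h }
  refine ⟨W E, inferInstance, inferInstance, hfin, E', rfl, ?_, ?_⟩
  · refine ⟨E'.symm', fun a => ?_, ?_⟩
    · rw [map_zero]
      exact E'.alt' a
    · intro a b c d h
      obtain ⟨a, rfl⟩ := Submodule.Quotient.mk_surjective _ a
      obtain ⟨b, rfl⟩ := Submodule.Quotient.mk_surjective _ b
      obtain ⟨c, rfl⟩ := Submodule.Quotient.mk_surjective _ c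
      obtain ⟨d, rfl⟩ := Submodule.Quotient.mk_surjective _ d
      obtain ⟨z, h1, h2⟩ := E.link'.link a b c d h
      exact ⟨Submodule.Quotient.mk z, h1, h2⟩
  · obtain ⟨t, ht⟩ := ht
    refine ⟨Submodule.Quotient.mk t, fun b => ?_⟩
    obtain ⟨v, hv⟩ := ht b
    exact ⟨Submodule.Quotient.mk v, hv⟩

end Pool.Agent.DSC
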