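import Pool.Agent.DSC.M

/-!
DSC, module S1: Hilbert 90 modulo the radical (step 1 of note 1580 (B)).
-/

set_option autoImplicit false

namespace Pool.Agent.DSC

open CommonSlot

namespace S1_
variable {V B V' B' : Type} [AddCommGroup V] [Module (ZMod 2) V] [AddCommGroup B]
  [Module (ZMod 2) B] [AddCommGroup V'] [Module (ZMod 2) V'] [AddCommGroup B']
  [Module (ZMod 2) B']
variable {E : RExt V B V' B'} {k : ℕ} (C : Dec E.q' k) {τ : Fin k → Fin k}

/-- representation of functionals on a local component -/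
theorem represent [Finite V'] {j : Fin k} {c0 : B'} (hc0 : c0 ≠ 0)
    (hc2 : ∀ b, C.π j b = 0 ∨ C.π j b = c0) (f : V' →ₗ[ZMod 2] ZMod 2)
    (hf : ∀ v, f (C.p j v) = f v) :
    ∃ y, C.p j y = y ∧ ∀ v, E.q' y v = f v • c0 := by
  have h0 : c0 ∉ (⊥ : Submodule (ZMod 2) B') := by simpa using hc0
  obtain ⟨φ, hφ, _⟩ := exists_functional h0
  have hφ1 : φ c0 = 1 := zm_ne_zero hφ
  let Φ : V' →ₗ[ZMod 2] (V' →ₗ[ZMod 2] ZMod 2) := (E.q'.compr₂ φ) ∘ₗ C.p j
  have hmem : f ∈ Submodule.span (ZMod 2) (LinearMap.range Φ : Set (V' →ₗ[ZMod 2] ZMod 2)) := by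
    apply mem_span_of_vanish
    intro v hv
    have h1 : C.p j v = 0 := by
      apply E.nd
      intro y
      have h2 : φ (E.q' (C.p j y) v) = 0 := hv (Φ y) (LinearMap.mem_range_self _ y)
      rw [C.cen, E.symm' y v, ← C.cen] at h2
      rcases hc2 (E.q' v y) with h | h
      · rw [C.cen, h]
      · rw [C.cen, h, hφ1] at h2
        exact absurd h2 (by decide)
    rw [← hf, h1, map_zero]
  rw [Submodule.span_eq] at hmem
  obtain ⟨y0, hy0⟩ := hmem
  refine ⟨C.p j y0, C.pidem E.nd j y0, fun v => ?_⟩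
  have h1 : f v = φ (E.q' (C.p j y0) v) := by rw [← hy0]; rfl
  rw [h1, C.cen]
  rcases hc2 (E.q' y0 v) with h | h
  · rw [h, map_zero, zero_smul]
  · rw [h, hφ1, one_smul]

theorem loc_case [Finite B] [Finite V']
    (hp : ∀ j v, E.σ (C.p j v) = C.p (τ j) (E.σ v))
    (hs : ∀ j b, E.s (C.π j b) = C.π (τ j) (E.s b)) {j : Fin k} (hj : τ j = j)
    {c0 : B'} (hc0 : c0 ≠ 0) (hc1 : C.π j c0 = c0)
    (hc2 : ∀ b, C.π j b = 0 ∨ C.π j b = c0) {m : V'} (hm : InM E m) (hmj : C.p j m = m)
    (h0 : E.cor (E.q' E.w0 m) = 0) : ∃ c, m = c + E.σ c := by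
  have hs0 : E.s c0 = c0 := by
    have h1 : C.π j (E.s c0) = E.s c0 := by
      conv_rhs => rw [← hc1, hs, hj]
    rcases hc2 (E.s c0) with h | h
    · exfalso
      apply hc0
      rw [← E.ss c0, ← h1, h, map_zero]
    · rw [← h1, h]
  have hcor : E.cor c0 ≠ 0 := by
    intro h
    obtain ⟨c, hc⟩ := E.kercor c0 h
    have h1 : c0 = C.π j c + E.s (C.π j c) := by
      conv_lhs => rw [← hc1, hc]
      rw [map_add, hs, hj]
    rcases hc2 c with h2 | h2
    · rw [h2, map_zero, add_zero] at h1
      exact hc0 h1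
    · rw [h2, hs0, ZModModule.add_self] at h1
      exact hc0 h1
  by_contra hcon
  have hnot : m ∉ LinearMap.range (LinearMap.id + E.σ) := by
    rintro ⟨c, hc⟩
    exact hcon ⟨c, by rw [← hc]; rfl⟩
  obtain ⟨f0, hf0, hf1⟩ := exists_functional hnot
  have hf1' : ∀ c, f0 (c + E.σ c) = 0 := fun c => hf1 _ ⟨c, rfl⟩
  obtain ⟨y, hy, hy2⟩ := represent C hc0 hc2 (f0 ∘ₗ C.p j)
    (fun v => by simp only [LinearMap.comp_apply]; rw [C.pidem E.nd])
  have hfσ : ∀ v, f0 (C.p j (E.σ v)) = f0 (C.p j v) := by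
    intro v
    have h1 := hf1' (C.p j v)
    rw [hp, hj, map_add] at h1
    exact (eq_of_add_eq_zero' h1).symm
  have hσy : E.σ y = y := by
    apply eq_of_add_eq_zero'
    apply E.nd
    intro v
    have h1 : E.q' (E.σ y) v = E.q' y v := by
      calc E.q' (E.σ y) v = E.q' (E.σ y) (E.σ (E.σ v)) := by rw [E.σσ]
        _ = E.s (E.q' y (E.σ v)) := by rw [E.eqv]
        _ = E.q' y v := by
          rw [hy2, hy2, LinearMap.comp_apply, LinearMap.comp_apply, hfσ, map_smul, hs0]
    rw [map_add, LinearMap.add_apply, h1, ZModModule.add_self]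
  have h2 := hm.orth h0 hσy
  rw [E.symm', hy2, LinearMap.comp_apply, hmj, zm_ne_zero hf0, one_smul] at h2
  exact hcor h2

section fan
variable {f : V' →ₗ[ZMod 2] ZMod 2} {t : V'} {j : Fin k}

/-- on the component, `q' v w` for `v ∈ D` only sees the `t`-part of `w` -/
theorem D_apply (h1 : f t = 1) (h2 : C.p j t = t) (_h3 : ∀ v, f (C.p j v) = f v)
    (h4 : ∀ d d', f d = 0 → f d' = 0 → E.q' (C.p j d) (C.p j d') = 0)
    {d : V'} (hd : C.p j d = d) (hfd : f d = 0) (w : V') :
    E.q' d w = f w • E.q' t d := by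
  have e : E.q' d w = E.q' (C.p j d) (C.p j w) := by
    rw [C.cen2 E.symm', ← C.cen, hd]
  rcases zm (f w) with hw | hw
  · rw [e, h4 d w hfd hw, hw, zero_smul]
  · have hw' : f (w + t) = 0 := by rw [map_add, hw, h1]; decide
    have e2 : w = (w + t) + t := by rw [add_assoc, ZModModule.add_self, add_zero]
    rw [e]
    conv_lhs => rw [e2]
    rw [map_add (C.p j), map_add (E.q' (C.p j d)), h4 d _ hfd hw', hd, h2, E.symm' d t, hw,
      one_smul, zero_add]

/-- `f` is invariant -/
theorem f_inv (h1 : f t = 1) (h2 : C.p j t = t) (h3 : ∀ v, f (C.p j v) = f v)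
    (h4 : ∀ d d', f d = 0 → f d' = 0 → E.q' (C.p j d) (C.p j d') = 0)
    (hp : ∀ j v, E.σ (C.p j v) = C.p (τ j) (E.σ v)) (hj : τ j = j)
    {d₁ d₂ : V'} (g1 : f d₁ = 0) (g2 : f d₂ = 0) (g3 : C.p j d₁ = d₁) (g4 : C.p j d₂ = d₂)
    (g5 : d₁ ≠ 0) (g6 : d₂ ≠ 0) (g7 : d₁ ≠ d₂) (v : V') : f (E.σ v) = f v := by
  -- first for elements of `D`
  have key : ∀ v, C.p j v = v → f v = 0 → f (E.σ v) = 0 := by
    intro v hv hfv
    by_contra hne
    have hone : f (E.σ v) = 1 := zm_ne_zero hne
    have hσv : C.p j (E.σ v) = E.σ v := by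
      have := hp j v
      rw [hj, hv] at this
      exact this.symm
    have hval : ∀ d, C.p j d = d → f d = 0 → d ≠ 0 → E.q' t d = E.s (E.q' t v) := by
      intro d hd hfd hd0
      have e1 : E.q' (E.σ v) d = E.q' t d := by
        rw [E.symm' (E.σ v) d, D_apply C h1 h2 h3 h4 hd hfd, hone, one_smul]
      have e2 : E.q' (E.σ v) d = E.s (E.q' v (E.σ d)) := by
        rw [← E.eqv, E.σσ]
      have e3 : E.q' t d ≠ 0 := fun h => hd0 (fan_zero C E.symm' E.nd j h1 h2 h4 hd hfd h)
      rw [← e1, e2, D_apply C h1 h2 h3 h4 hv hfv]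
      rcases zm (f (E.σ d)) with h | h
      · exfalso
        apply e3
        rw [← e1, e2, D_apply C h1 h2 h3 h4 hv hfv, h, zero_smul, map_zero]
      · rw [h, one_smul]
    apply g7
    apply eq_of_add_eq_zero'
    apply fan_zero C E.symm' E.nd j h1 h2 h4
    · rw [map_add, g3, g4]
    · rw [map_add, g1, g2, add_zero]
    · rw [map_add, hval d₁ g3 g1 g5, hval d₂ g4 g2 g6, ZModModule.add_self]
  have key2 : ∀ v, C.p j v = v → f (E.σ v) = f v := by
    intro v hv
    have hσv : C.p j (E.σ v) = E.σ v := by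
      have := hp j v
      rw [hj, hv] at this
      exact this.symm
    rcases zm (f v) with h | h
    · rw [h, key v hv h]
    · rcases zm (f (E.σ v)) with h' | h'
      · have := key _ hσv h'
        rw [E.σσ, h] at this
        exact absurd this (by decide)
      · rw [h, h']
  calc f (E.σ v) = f (C.p j (E.σ v)) := (h3 _).symm
    _ = f (E.σ (C.p j v)) := by rw [hp, hj]
    _ = f (C.p j v) := key2 _ (C.pidem E.nd j v)
    _ = f v := h3 v

/-- `σ` on elements of `M` in `D`, transfer to `B` -/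
theorem q_t_of (h1 : f t = 1) (h2 : C.p j t = t) (h3 : ∀ v, f (C.p j v) = f v)
    (h4 : ∀ d d', f d = 0 → f d' = 0 → E.q' (C.p j d) (C.p j d') = 0)
    {d : V'} (hd : C.p j d = d) (hfd : f d = 0) {w : V'} (hw : f w = 1) :
    E.q' w d = E.q' t d := by
  rw [E.symm' w d, D_apply C h1 h2 h3 h4 hd hfd, hw, one_smul]

end fan

theorem fan_case [Finite B] [Finite V']
    (hp : ∀ j v, E.σ (C.p j v) = C.p (τ j) (E.σ v))
    (hs : ∀ j b, E.s (C.π j b) = C.π (τ j) (E.s b)) {j : Fin k} (hj : τ j = j)
    {f : V' →ₗ[ZMod 2] ZMod 2} {t : V'} (h1 : f t = 1) (h2 : C.p j t = t)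
    (h3 : ∀ v, f (C.p j v) = f v)
    (h4 : ∀ d d', f d = 0 → f d' = 0 → E.q' (C.p j d) (C.p j d') = 0)
    (h5 : ∀ b, ∃ d, f d = 0 ∧ C.p j d = d ∧ E.q' t d = C.π j b)
    (hσf : ∀ v, f (E.σ v) = f v)
    {m : V'} (hm : InM E m) (hmj : C.p j m = m)
    (h0 : E.cor (E.q' E.w0 m) = 0) : ∃ c, m = c + E.σ c := by
  have hσp : ∀ v, C.p j v = v → C.p j (E.σ v) = E.σ v := by
    intro v hv
    have := hp j v
    rw [hj, hv] at this
    exact this.symm
  have hπs : ∀ b, C.π j (E.s b) = E.s (C.π j b) := fun b => by rw [hs, hj]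
  obtain ⟨b0, hb0⟩ := comp_ne C E.symm' E.nd j
  have hqt := fun {d : V'} (hd : C.p j d = d) (hfd : f d = 0) {w : V'} (hw : f w = 1) =>
    q_t_of C h1 h2 h3 h4 hd hfd hw
  have hD := fun {d : V'} (hd : C.p j d = d) (hfd : f d = 0) (w : V') =>
    D_apply C h1 h2 h3 h4 hd hfd w
  by_cases hcase : ∀ v, f (E.res v) = 0
  · -- A: `D ⊆ M`
    have a1 : ∀ d, C.p j d = d → f d = 0 → InM E d := by
      intro d hd hfd v
      rw [E.symm', hD hd hfd, hcase, zero_smul, map_zero]
    -- `cor` of `π j b` and the norm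
    have a2 : f m = 0 := by
      by_contra hfm
      have hfm' : f m = 1 := zm_ne_zero hfm
      have e1 : ∀ b, E.cor (C.π j b) = 0 := by
        intro b
        obtain ⟨d, hd1, hd2, hd3⟩ := h5 b
        rw [← hd3, ← hqt hd2 hd1 hfm']
        exact hm.iso (a1 d hd2 hd1)
      have e2 : ∀ b, ∃ c, C.π j b = C.π j c + E.s (C.π j c) := by
        intro b
        obtain ⟨c, hc⟩ := E.kercor _ (e1 b)
        refine ⟨c, ?_⟩
        rw [← C.idem, hc, map_add, hπs]
      obtain ⟨c, hc⟩ := e2 b0
      obtain ⟨c', hc'⟩ := e2 c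
      apply hb0
      rw [hc, hc', map_add, E.ss]
      have : C.π j c' + E.s (C.π j c') + (E.s (C.π j c') + C.π j c') =
        (C.π j c' + C.π j c') + (E.s (C.π j c') + E.s (C.π j c')) := by abel
      rw [this, ZModModule.add_self, ZModModule.add_self, add_zero]
    have a3 : ∀ b, E.s (C.π j b) = C.π j b := by
      intro b
      obtain ⟨d, hd1, hd2, hd3⟩ := h5 b
      rw [← hd3, ← E.eqv, (a1 d hd2 hd1).fix]
      exact hqt hd2 hd1 (by rw [hσf, h1])
    have a4 : ∀ b, E.cor (C.π j b) = 0 → C.π j b = 0 := by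
      intro b hb
      obtain ⟨c, hc⟩ := E.kercor _ hb
      rw [← C.idem, hc, map_add, hπs, a3, ZModModule.add_self]
    have a5 : f E.w0 = 1 := by
      by_contra hne
      have hf0 : f E.w0 = 0 := zm_ne_one hne
      obtain ⟨v, hv⟩ := E.kerres (C.π j b0) (by rw [a3, ZModModule.add_self])
      rw [E.normx] at hv
      have e1 : E.cor (C.π j b0 + E.q' (E.res v) E.w0) = 0 := by
        rw [map_add, hv, ZModModule.add_self]
      have e2 := a4 _ (graded C hs hj e1)
      have e3 : C.π j (E.q' (E.res v) E.w0) = 0 := by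
        rw [← C.cen2 E.symm']
        exact h4 _ _ (hcase v) hf0
      rw [map_add, C.idem, e3, add_zero] at e2
      exact hb0 e2
    have a6 : E.q' E.w0 m = E.q' t m := hqt hmj a2 a5
    have a7 : E.q' t m = C.π j (E.q' t m) := by
      rw [← C.cen, h2]
    have a8 : E.q' t m = 0 := by
      rw [a7]
      apply a4
      rw [← a7, ← a6, h0]
    have a9 : m = 0 := fan_zero C E.symm' E.nd j h1 h2 h4 hmj a2 a8
    exact ⟨0, by rw [a9, map_zero, add_zero]⟩
  · -- B
    push Not at hcase
    obtain ⟨v0, hv0⟩ := hcase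
    have hv0' : f (E.res v0) = 1 := zm_ne_zero hv0
    set t1 : V' := C.p j (E.res v0) with ht1
    have b1 : f t1 = 1 := by rw [ht1, h3, hv0']
    have b2 : C.p j t1 = t1 := C.pidem E.nd j _
    have b3 : InM E t1 := InM.comp C hs hj (res_mem v0)
    have b4 : E.σ t1 = t1 := b3.fix
    -- elements of `D` orthogonal to `t1`
    have b5 : ∀ d, C.p j d = d → f d = 0 → E.cor (E.q' t1 d) = 0 →
        ∃ c, C.p j c = c ∧ f c = 0 ∧ d = c + E.σ c := by
      intro d hd hfd hc
      have e0 : E.q' t1 d = C.π j (E.q' t1 d) := by rw [← C.cen, b2]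
      obtain ⟨c, hc⟩ := E.kercor _ hc
      have e1 : E.q' t1 d = C.π j c + E.s (C.π j c) := by
        rw [e0, hc, map_add, hπs]
      obtain ⟨d', hd1, hd2, hd3⟩ := h5 c
      have e2 : E.q' t1 d' = C.π j c := by rw [← hd3]; exact hqt hd2 hd1 b1
      have e3 : E.q' t1 (E.σ d') = E.s (C.π j c) := by
        rw [← e2, ← E.eqv, b4]
      refine ⟨d', hd2, hd1, ?_⟩
      apply eq_of_add_eq_zero'
      apply fan_zero C E.symm' E.nd j b1 b2 h4
      · rw [map_add, map_add, hd, hd2, hσp d' hd2]
      · rw [map_add, map_add, hfd, hd1, hσf, hd1, add_zero, add_zero]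
      · rw [map_add, map_add, e1, e2, e3, ZModModule.add_self]
    have hσres : ∀ v, E.σ (E.res v) = E.res v := fun v => (res_mem v).fix
    have hcancel : ∀ w c, E.σ w = w → E.cor (E.q' w (c + E.σ c)) = 0 := by
      intro w c hw
      have e : E.q' w (E.σ c) = E.s (E.q' w c) := by rw [← E.eqv, hw]
      rw [map_add, e]
      exact E.corker _
    rcases zm (f m) with hfm | hfm
    · obtain ⟨c, _, _, hc⟩ := b5 m hmj hfm (b3.iso hm)
      exact ⟨c, hc⟩
    exfalso
    have b6 : E.cor (E.q' E.w0 t1) = 0 := by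
      have e1 : f (m + t1) = 0 := by rw [map_add, hfm, b1]; decide
      have e2 : C.p j (m + t1) = m + t1 := by rw [map_add, hmj, b2]
      obtain ⟨c, _, _, hc⟩ := b5 (m + t1) e2 e1 (b3.iso (hm.add b3))
      have e3 := hcancel E.w0 c E.σw0
      rw [← hc, map_add, map_add, h0, zero_add] at e3
      exact e3
    -- `w0_j ∈ M`
    set wj : V' := C.p j E.w0 with hwj
    have b7 : C.p j wj = wj := C.pidem E.nd j _
    have b8 : E.cor (E.q' t1 wj) = 0 := by
      have : E.q' t1 wj = E.q' E.w0 t1 := by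
        rw [hwj, C.cen' E.symm', ← C.cen, b2, E.symm']
      rw [this, b6]
    have b9 : InM E wj := by
      rcases zm (f wj) with hf | hf
      · obtain ⟨c, _, _, hc⟩ := b5 wj b7 hf b8
        intro v
        rw [hc]
        exact hcancel _ c (hσres v)
      · have e1 : f (wj + t1) = 0 := by rw [map_add, hf, b1]; decide
        have e2 : C.p j (wj + t1) = wj + t1 := by rw [map_add, b7, b2]
        have e3 : E.cor (E.q' t1 (wj + t1)) = 0 := by
          rw [map_add, E.alt', add_zero, b8]
        obtain ⟨c, _, _, hc⟩ := b5 (wj + t1) e2 e1 e3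
        have e4 : wj = (c + E.σ c) + t1 := by
          rw [← hc, add_assoc, ZModModule.add_self, add_zero]
        have e5 : InM E (c + E.σ c) := fun v => hcancel _ c (hσres v)
        rw [e4]
        exact e5.add b3
    -- `Q_x ∩ cor B_j = 0`
    have b10 : ∀ b v, E.q E.x v = E.cor (C.π j b) → E.cor (C.π j b) = 0 := by
      intro b v h
      rw [E.normx] at h
      have e1 : E.cor (E.q' (E.res v) E.w0 + C.π j b) = 0 := by
        rw [map_add, h, ZModModule.add_self]
      have e2 := graded C hs hj e1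
      rw [map_add, C.idem, map_add] at e2
      have e3 : E.cor (C.π j (E.q' (E.res v) E.w0)) = 0 := by
        rw [← C.cen' E.symm']
        exact b9 v
      rw [e3, zero_add] at e2
      exact e2
    have b11 : ∀ b, C.π j b + E.s (C.π j b) = 0 → ∃ c, C.π j b = C.π j c + E.s (C.π j c) := by
      intro b hb
      obtain ⟨v, hv⟩ := E.kerres _ hb
      obtain ⟨c, hc⟩ := E.kercor _ (b10 b v hv.symm)
      exact ⟨c, by rw [← C.idem, hc, map_add, hπs]⟩
    -- an element of `D` moved by `σ`
    obtain ⟨d, hd1, hd2, hd3⟩ : ∃ d, C.p j d = d ∧ f d = 0 ∧ d + E.σ d ≠ 0 := by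
      by_contra hc
      push Not at hc
      have e1 : ∀ b, C.π j b + E.s (C.π j b) = 0 := by
        intro b
        obtain ⟨d, g1, g2, g3⟩ := h5 b
        have g4 : E.q' t1 d = C.π j b := by rw [← g3]; exact hqt g2 g1 b1
        have g5 : E.s (C.π j b) = E.q' t1 (E.σ d) := by rw [← g4, ← E.eqv, b4]
        rw [g5, ← g4, ← map_add, hc d g2 g1, map_zero]
      obtain ⟨c, hc'⟩ := b11 b0 (e1 b0)
      rw [e1] at hc'
      exact hb0 hc'
    set β : B := E.cor (E.q' t1 d) with hβ
    have c0 : E.q' t1 d = C.π j (E.q' t1 d) := by rw [← C.cen, b2]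
    have c1 : β ≠ 0 := by
      intro h
      obtain ⟨c, _, _, hc⟩ := b5 d hd1 hd2 h
      apply hd3
      rw [hc, map_add, E.σσ]
      have : c + E.σ c + (E.σ c + c) = (c + c) + (E.σ c + E.σ c) := by abel
      rw [this, ZModModule.add_self, ZModModule.add_self, add_zero]
    have c2 : ∀ v, E.q E.x v ≠ β := by
      intro v h
      apply c1
      rw [hβ, c0]
      apply b10 _ v
      rw [← c0, h]
    set p : V := E.N d with hpd
    have c3 : ∀ v, E.q p v = f (E.res v) • β := by
      intro v
      rw [E.symm, hpd, ← E.proj, E.symm', hD hd1 hd2, map_smul, hβ]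
      congr 2
      exact (hqt hd1 hd2 b1).symm
    -- ranks
    have c4 : rk E.q' (E.res p) ≤ 1 := by
      have e1 : E.res p = d + E.σ d := E.resN d
      have e2 : C.p j (d + E.σ d) = d + E.σ d := by rw [map_add, hd1, hσp d hd1]
      have e3 : f (d + E.σ d) = 0 := by rw [map_add, hσf, hd2, add_zero]
      unfold rk
      have e4 : LinearMap.range (E.q' (E.res p)) ≤
          Submodule.span (ZMod 2) {E.q' t (d + E.σ d)} := by
        rintro _ ⟨w, rfl⟩
        rw [e1, hD e2 e3]
        exact Submodule.smul_mem _ _ (Submodule.mem_span_singleton_self _)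
      have : Module.Finite (ZMod 2) (Submodule.span (ZMod 2) {E.q' t (d + E.σ d)}) :=
        Module.Finite.span_of_finite _ (Set.finite_singleton _)
      exact (Submodule.finrank_mono e4).trans ((finrank_span_le_card _).trans (by simp))
    have c5 : 1 ≤ rk E.q p := by
      unfold rk
      rw [Nat.one_le_iff_ne_zero]
      intro h
      have h' := Submodule.finrank_eq_zero.1 h
      have : β ∈ LinearMap.range (E.q p) := ⟨v0, by rw [c3, hv0', one_smul]⟩
      rw [h'] at this
      exact c1 ((Submodule.mem_bot _).1 this)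
    have c6 : rk E.q (p + E.x) ≤ rk E.q E.x := by
      have e1 := E.dform p
      have e2 := E.dform 0
      have e3 : rk E.q 0 = 0 := by
        unfold rk
        rw [map_zero, LinearMap.range_zero, finrank_bot]
      have e4 : rk E.q' (E.res 0) = 0 := by
        unfold rk
        rw [map_zero, map_zero, LinearMap.range_zero, finrank_bot]
      rw [zero_add, e3, e4] at e2
      omega
    -- hence `f ∘ res` vanishes on `V_x`
    have c7 : ∀ v, E.q E.x v = 0 → f (E.res v) = 0 := by
      intro v hv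
      by_contra hne
      have hone : f (E.res v) = 1 := zm_ne_zero hne
      have e1 : β ∈ LinearMap.range (E.q (p + E.x)) :=
        ⟨v, by rw [map_add, LinearMap.add_apply, c3, hone, one_smul, hv, add_zero]⟩
      have e2 : LinearMap.range (E.q E.x) ≤ LinearMap.range (E.q (p + E.x)) := by
        rintro _ ⟨u, rfl⟩
        have e3 : E.q E.x u = E.q (p + E.x) u + f (E.res u) • β := by
          rw [map_add, LinearMap.add_apply, c3]
          have : f (E.res u) • β + E.q E.x u + f (E.res u) • β =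
            E.q E.x u + (f (E.res u) • β + f (E.res u) • β) := by abel
          rw [this, ZModModule.add_self, add_zero]
        rw [e3]
        exact Submodule.add_mem _ (LinearMap.mem_range_self _ u) (Submodule.smul_mem _ _ e1)
      have e4 : LinearMap.range (E.q E.x) = LinearMap.range (E.q (p + E.x)) :=
        Submodule.eq_of_le_of_finrank_le e2 c6
      rw [← e4] at e1
      obtain ⟨u, hu⟩ := e1
      exact c2 u hu
    -- Rosset-Tate
    obtain ⟨v, hv⟩ := b3.rt (d + (E.w0 + wj))
    have d1 : E.q' t1 (E.w0 + wj) = 0 := by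
      rw [map_add, hwj, C.cen' E.symm', ← C.cen, b2, ZModModule.add_self]
    have d2 : E.q (E.N (d + (E.w0 + wj))) v = f (E.res v) • β + E.q E.x v := by
      rw [map_add, map_add, map_add, map_add, LinearMap.add_apply, LinearMap.add_apply, qNw0,
        b9.qN, add_zero, ← c3]
    rw [map_add, d1, add_zero, d2, ← hβ] at hv
    rcases zm (f (E.res v)) with h | h
    · rw [h, zero_smul, zero_add] at hv
      exact c2 v hv.symm
    · rw [h, one_smul] at hv
      have : E.q E.x v = 0 := by
        have h' : β + β = β + (β + E.q E.x v) := by rw [← hv]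
        rw [ZModModule.add_self, add_add_self] at h'
        exact h'.symm
      have := c7 v this
      rw [h] at this
      exact absurd this (by decide)

end S1_

open S1_ in
theorem s1_proof : Stmt_S1 := by
  intro V B V' B' _ _ _ _ _ _ _ _ _ _ _ _ E k C τ hf hττ hp hs m hm
  -- adjust by a restriction
  obtain ⟨a, b, hab⟩ := E.rt E.w0 m
  have h1 : E.cor (E.q' E.w0 m) = E.cor (E.q' E.w0 (E.res a)) := by
    rw [hab, (show InM E m from hm).qN, add_zero, qNw0, E.normx, E.symm']
  set m' : V' := m + E.res a with hm'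
  have hM : InM E m' := InM.add hm (res_mem a)
  have h0 : E.cor (E.q' E.w0 m') = 0 := by
    rw [hm', map_add, map_add, h1, ZModModule.add_self]
  -- fixed components
  have hfix : ∀ j, τ j = j → ∃ c, C.p j m' = c + E.σ c := by
    intro j hj
    have hmj : C.p j (C.p j m') = C.p j m' := C.pidem E.nd j _
    have hMj : InM E (C.p j m') := InM.comp C hs hj hM
    have h0j : E.cor (E.q' E.w0 (C.p j m')) = 0 := by
      rw [C.cen' E.symm']
      exact graded C hs hj h0
    rcases C.typ j with ⟨c0, g0, g1, g2⟩ | ⟨f, t, g1, g2, g3, g4, g5, d₁, d₂, e1, e2, e3, e4, e5, e6, e7⟩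
    · exact loc_case C hp hs hj g0 g1 g2 hMj hmj h0j
    · exact fan_case C hp hs hj g1 g2 g3 g4 g5
        (f_inv C g1 g2 g3 g4 hp hj e1 e2 e3 e4 e5 e6 e7) hMj hmj h0j
  -- the whole
  have hall : ∃ c, m' = c + E.σ c := by
    classical
    have hsplit : m' = ∑ j ∈ Finset.univ.filter (fun j => τ j = j), C.p j m' +
        ∑ j ∈ Finset.univ.filter (fun j => ¬ τ j = j), C.p j m' := by
      rw [Finset.sum_filter_add_sum_filter_not, C.sum_p]
    have hfree : ∑ j ∈ Finset.univ.filter (fun j => ¬ τ j = j), C.p j m' =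
        ∑ j ∈ Finset.univ.filter (fun j => j < τ j), C.p j m' +
        E.σ (∑ j ∈ Finset.univ.filter (fun j => j < τ j), C.p j m') := by
      have e1 : Finset.univ.filter (fun j => ¬ τ j = j) =
          Finset.univ.filter (fun j => j < τ j) ∪ Finset.univ.filter (fun j => τ j < j) := by
        ext j
        simp only [Finset.mem_filter, Finset.mem_univ, true_and, Finset.mem_union]
        constructor
        · intro h
          rcases lt_trichotomy j (τ j) with h' | h' | h'
          · exact Or.inl h'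
          · exact absurd h'.symm h
          · exact Or.inr h'
        · rintro (h | h) h'
          · rw [h'] at h; exact lt_irrefl _ h
          · rw [h'] at h; exact lt_irrefl _ h
      have e2 : Disjoint (Finset.univ.filter (fun j => j < τ j))
          (Finset.univ.filter (fun j => τ j < j)) := by
        rw [Finset.disjoint_left]
        intro j h h'
        simp only [Finset.mem_filter, Finset.mem_univ, true_and] at h h'
        exact lt_asymm h h'
      rw [e1, Finset.sum_union e2, map_sum]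
      congr 1
      refine Finset.sum_nbij' τ τ ?_ ?_ ?_ ?_ ?_
      · intro j hj
        simp only [Finset.mem_filter, Finset.mem_univ, true_and] at hj ⊢
        rwa [hττ]
      · intro j hj
        simp only [Finset.mem_filter, Finset.mem_univ, true_and] at hj ⊢
        rwa [hττ]
      · intro j _; exact hττ j
      · intro j _; exact hττ j
      · intro j _
        rw [hp, hττ, hM.fix]
    have hfx : ∃ c, ∑ j ∈ Finset.univ.filter (fun j => τ j = j), C.p j m' = c + E.σ c := by
      choose! c hc using hfix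
      refine ⟨∑ j ∈ Finset.univ.filter (fun j => τ j = j), c j, ?_⟩
      rw [map_sum, ← Finset.sum_add_distrib]
      refine Finset.sum_congr rfl fun j hj => ?_
      simp only [Finset.mem_filter, Finset.mem_univ, true_and] at hj
      exact hc j hj
    obtain ⟨c, hc⟩ := hfx
    refine ⟨c + ∑ j ∈ Finset.univ.filter (fun j => j < τ j), C.p j m', ?_⟩
    conv_lhs => rw [hsplit, hc, hfree]
    rw [map_add]
    abel
  obtain ⟨v, hv⟩ := mem_one_add hall
  refine ⟨v + a, ?_⟩
  rw [map_add, hv, hm', add_assoc, ZModModule.add_self, add_zero]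

end Pool.Agent.DSC
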