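import Pool.Agent.DSC.S1

/-!
DSC, module S2: a total element of `F` (step 2 of note 1580 (B)).
-/

set_option autoImplicit false

namespace Pool.Agent.DSC

open CommonSlot

namespace S2_
variable {V B V' B' : Type} [AddCommGroup V] [Module (ZMod 2) V] [AddCommGroup B]
  [Module (ZMod 2) B] [AddCommGroup V'] [Module (ZMod 2) V'] [AddCommGroup B']
  [Module (ZMod 2) B']
variable {E : RExt V B V' B'} {k : ℕ} (C : Dec E.q' k) (τ : Fin k → Fin k)

/-- the fixed components `D[t]` with `res V` inside `D` -/
structure Z0 (j : Fin k) (f : V' →ₗ[ZMod 2] ZMod 2) (t : V') : Prop where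
  fix : τ j = j
  h1 : f t = 1
  h2 : C.p j t = t
  h3 : ∀ v, f (C.p j v) = f v
  h4 : ∀ d d', f d = 0 → f d' = 0 → E.q' (C.p j d) (C.p j d') = 0
  h5 : ∀ b, ∃ d, f d = 0 ∧ C.p j d = d ∧ E.q' t d = C.π j b
  res0 : ∀ v, f (E.res v) = 0
  hM : ∀ d, C.p j d = d → f d = 0 → InM E d
  inj : ∀ b, E.cor (C.π j b) = 0 → C.π j b = 0
  sfix : ∀ b, E.s (C.π j b) = C.π j b
  w0 : f E.w0 = 1
  σt : E.σ t = t

variable {C τ}

theorem dichotomy [Finite B] [Finite V']
    (hp : ∀ j v, E.σ (C.p j v) = C.p (τ j) (E.σ v))
    (hs : ∀ j b, E.s (C.π j b) = C.π (τ j) (E.s b)) {j : Fin k} (hj : τ j = j) :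
    (∃ f t, Z0 C τ j f t) ∨
    ∃ m, InM E m ∧ C.p j m = m ∧ ∀ b, ∃ w, C.p j w = w ∧ E.q' m w = C.π j b := by
  have hπs : ∀ b, C.π j (E.s b) = E.s (C.π j b) := fun b => by rw [hs, hj]
  rcases C.typ j with ⟨c0, g0, g1, g2⟩ | ⟨f, t, h1, h2, h3, h4, h5, d₁, d₂, e1, e2, e3, e4, e5, e6, e7⟩
  · right
    -- `cor c0 ≠ 0`
    have hs0 : E.s c0 = c0 := by
      have h1 : C.π j (E.s c0) = E.s c0 := by
        conv_rhs => rw [← g1, hs, hj]
      rcases g2 (E.s c0) with h | h
      · exfalso
        apply g0
        rw [← E.ss c0, ← h1, h, map_zero]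
      · rw [← h1, h]
    have hcor : E.cor c0 ≠ 0 := by
      intro h
      obtain ⟨c, hc⟩ := E.kercor c0 h
      have h1 : c0 = C.π j c + E.s (C.π j c) := by
        conv_lhs => rw [← g1, hc]
        rw [map_add, hs, hj]
      rcases g2 c with h2 | h2
      · rw [h2, map_zero, add_zero] at h1
        exact g0 h1
      · rw [h2, hs0, ZModModule.add_self] at h1
        exact g0 h1
    have htot : ∀ m, C.p j m = m → m ≠ 0 → ∀ b, ∃ w, C.p j w = w ∧ E.q' m w = C.π j b := by
      intro m hm hm0 b
      rcases g2 b with h | h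
      · exact ⟨0, map_zero _, by rw [map_zero, h]⟩
      · obtain ⟨w, hw⟩ : ∃ w, E.q' m w ≠ 0 := by
          by_contra hc
          push Not at hc
          exact hm0 (E.nd m hc)
        refine ⟨C.p j w, C.pidem E.nd j w, ?_⟩
        have h3 : E.q' m (C.p j w) = E.q' m w := by
          rw [C.cen' E.symm', ← C.cen, hm]
        rw [h3, h]
        rcases g2 (E.q' m w) with h4 | h4
        · exfalso
          apply hw
          rw [← hm, C.cen, h4]
        · rw [← h4, ← C.cen, hm]
    by_cases hne : ∃ v, C.p j (E.res v) ≠ 0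
    · obtain ⟨v, hv⟩ := hne
      exact ⟨C.p j (E.res v), InM.comp C hs hj (res_mem v), C.pidem E.nd j _,
        htot _ (C.pidem E.nd j _) hv⟩
    · exfalso
      push Not at hne
      have hall : ∀ m, C.p j m = m → InM E m := by
        intro m hm v
        rw [← hm, C.cen' E.symm', ← C.cen, hne, map_zero, LinearMap.zero_apply, map_zero]
      -- a nonzero element of the component
      obtain ⟨b, hb⟩ := comp_ne C E.symm' E.nd j
      have hbc : C.π j b = c0 := (g2 b).resolve_left hb
      by_cases hz : ∀ v, C.p j v = 0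
      · obtain ⟨v, hv⟩ : ∃ v, C.p j v ≠ 0 := by
          by_contra hc
          -- then the component of every value vanishes; use `cor_surj`-free argument below
          exact hcor (by
            have : ∀ v w, C.π j (E.q' v w) = 0 := fun v w => by
              rw [← C.cen, hz, map_zero, LinearMap.zero_apply]
            exfalso
            exact absurd hc (by
              push Not
              by_contra hc'
              push Not at hc'
              exact (by
                obtain ⟨u, hu⟩ := E.kerres c0 (by rw [hs0, ZModModule.add_self])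
                rw [E.normx] at hu
                have e1 : E.cor (c0 + E.q' (E.res u) E.w0) = 0 := by
                  rw [map_add, hu, ZModModule.add_self]
                have e2 := graded C hs hj e1
                rw [map_add, this, add_zero, g1] at e2
                exact hcor e2)))
        exact hv (hz v)
      · push Not at hz
        obtain ⟨v, hv⟩ := hz
        obtain ⟨w, hw1, hw2⟩ := htot _ (C.pidem E.nd j v) hv c0
        have := (hall _ (C.pidem E.nd j v)).iso (hall w hw1)
        rw [hw2, g1] at this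
        exact hcor this
  · have hσf := S1_.f_inv C h1 h2 h3 h4 hp hj e1 e2 e3 e4 e5 e6 e7
    have hqt := fun {d : V'} (hd : C.p j d = d) (hfd : f d = 0) {w : V'} (hw : f w = 1) =>
      S1_.q_t_of C h1 h2 h3 h4 hd hfd hw
    have hD := fun {d : V'} (hd : C.p j d = d) (hfd : f d = 0) (w : V') =>
      S1_.D_apply C h1 h2 h3 h4 hd hfd w
    by_cases hcase : ∀ v, f (E.res v) = 0
    · left
      obtain ⟨b0, hb0⟩ := comp_ne C E.symm' E.nd j
      have a1 : ∀ d, C.p j d = d → f d = 0 → InM E d := by
        intro d hd hfd v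
        rw [E.symm', hD hd hfd, hcase, zero_smul, map_zero]
      have a3 : ∀ b, E.s (C.π j b) = C.π j b := by
        intro b
        obtain ⟨d, hd1, hd2, hd3⟩ := h5 b
        rw [← hd3, ← E.eqv, (a1 d hd2 hd1).fix]
        exact hqt hd2 hd1 (by rw [hσf, h1])
      have a4 : ∀ b, E.cor (C.π j b) = 0 → C.π j b = 0 := by
        intro b hb
        obtain ⟨c, hc⟩ := E.kercor _ hb
        rw [← C.idem, hc, map_add, hπs, a3, ZModModule.add_self]
      have a5 : f E.w0 = 1 := by
        by_contra hne
        have hf0 : f E.w0 = 0 := zm_ne_one hne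
        obtain ⟨v, hv⟩ := E.kerres (C.π j b0) (by rw [a3, ZModModule.add_self])
        rw [E.normx] at hv
        have e1 : E.cor (C.π j b0 + E.q' (E.res v) E.w0) = 0 := by
          rw [map_add, hv, ZModModule.add_self]
        have e2 := a4 _ (graded C hs hj e1)
        have e3 : C.π j (E.q' (E.res v) E.w0) = 0 := by
          rw [← C.cen2 E.symm']
          exact h4 _ _ (hcase v) hf0
        rw [map_add, C.idem, e3, add_zero] at e2
        exact hb0 e2
      refine ⟨f, t, hj, h1, h2, h3, h4, h5, hcase, a1, a4, a3, a5, ?_⟩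
      -- `σ t = t`
      have c1 : C.p j (t + E.σ t) = t + E.σ t := by
        have := hp j t
        rw [hj, h2] at this
        rw [map_add, h2, ← this]
      have c2 : f (t + E.σ t) = 0 := by rw [map_add, hσf, ZModModule.add_self]
      have c3 : E.cor (E.q' (t + E.σ t) t) = 0 := by
        rw [← E.resN, E.proj, E.alt]
      have c4 : E.q' t (t + E.σ t) = 0 := by
        have e8 : E.q' t (t + E.σ t) = C.π j (E.q' t (t + E.σ t)) := by rw [← C.cen, h2]
        rw [e8]
        apply a4
        rw [← e8, E.symm', c3]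
      exact (eq_of_add_eq_zero' (fan_zero C E.symm' E.nd j h1 h2 h4 c1 c2 c4)).symm
    · right
      push Not at hcase
      obtain ⟨v0, hv0⟩ := hcase
      have hv0' : f (E.res v0) = 1 := zm_ne_zero hv0
      refine ⟨C.p j (E.res v0), InM.comp C hs hj (res_mem v0), C.pidem E.nd j _, ?_⟩
      intro b
      obtain ⟨d, hd1, hd2, hd3⟩ := h5 b
      refine ⟨d, hd2, ?_⟩
      rw [← hd3]
      exact hqt hd2 hd1 (by rw [h3, hv0'])

theorem InM.sum {ι : Type} (s : Finset ι) (g : ι → V') (h : ∀ i ∈ s, InM E (g i)) :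
    InM E (∑ i ∈ s, g i) := by
  classical
  induction s using Finset.induction_on with
  | empty => intro v; rw [Finset.sum_empty, map_zero, map_zero]
  | insert a s ha ih =>
    rw [Finset.sum_insert ha]
    exact InM.add (h a (Finset.mem_insert_self _ _))
      (ih fun i hi => h i (Finset.mem_insert_of_mem hi))

end S2_

open S2_ in
theorem s2_proof : Stmt_S2 := by
  classical
  intro V B V' B' _ _ _ _ _ _ _ _ _ _ _ _ E k C τ hf hττ hp hs H90
  obtain ⟨t0, ht0⟩ := hf
  -- the set `J0`
  set J0 : Finset (Fin k) := Finset.univ.filter (fun j => ∃ f t, Z0 C τ j f t) with hJ0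
  have hJ0fix : ∀ j ∈ J0, τ j = j := by
    intro j hj
    obtain ⟨f, t, h⟩ := (Finset.mem_filter.1 hj).2
    exact h.fix
  have hZ : ∀ j : Fin k, ∃ ft : (V' →ₗ[ZMod 2] ZMod 2) × V', j ∈ J0 → Z0 C τ j ft.1 ft.2 := by
    intro j
    by_cases hj : j ∈ J0
    · obtain ⟨f, t, h⟩ := (Finset.mem_filter.1 hj).2
      exact ⟨(f, t), fun _ => h⟩
    · exact ⟨(0, 0), fun h => absurd h hj⟩
  choose ft hft using hZ
  -- total elements of the other components
  have hμ : ∀ j : Fin k, ∃ m, C.p j m = m ∧ (j ∈ J0 → m = 0) ∧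
      (j ∉ J0 → ∀ b, ∃ w, C.p j w = w ∧ E.q' m w = C.π j b) ∧
      (τ j = j → InM E m) ∧ (j < τ j → m = C.p j t0) ∧ (τ j < j → m = E.σ (C.p (τ j) t0)) := by
    intro j
    by_cases hj : j ∈ J0
    · have hfx := hJ0fix j hj
      refine ⟨0, map_zero _, fun _ => rfl, fun h => absurd hj h, fun _ v => by simp, ?_, ?_⟩
      · intro h; rw [hfx] at h; exact absurd h (lt_irrefl _)
      · intro h; rw [hfx] at h; exact absurd h (lt_irrefl _)
    · rcases lt_trichotomy j (τ j) with h | h | h
      · refine ⟨C.p j t0, C.pidem E.nd j _, fun h' => absurd h' hj, fun _ b => ?_, ?_, fun _ => rfl, ?_⟩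
        · obtain ⟨w, hw⟩ := ht0 b
          refine ⟨C.p j w, C.pidem E.nd j _, ?_⟩
          rw [C.cen2 E.symm', hw]
        · intro h'; rw [h'] at h; exact absurd h (lt_irrefl _)
        · intro h'; exact absurd h (lt_asymm h')
      · rcases dichotomy hp hs h.symm with h' | ⟨m, m1, m2, m3⟩
        · exact absurd (by rw [hJ0]; exact Finset.mem_filter.2 ⟨Finset.mem_univ _, h'⟩) hj
        · refine ⟨m, m2, fun h' => absurd h' hj, fun _ => m3, fun _ => m1, ?_, ?_⟩
          · intro h'; rw [← h] at h'; exact absurd h' (lt_irrefl _)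
          · intro h'; rw [← h] at h'; exact absurd h' (lt_irrefl _)
      · refine ⟨E.σ (C.p (τ j) t0), ?_, fun h' => absurd h' hj, fun _ b => ?_, ?_, ?_, fun _ => rfl⟩
        · rw [hp, hττ, C.pidem E.nd]
        · obtain ⟨w, hw⟩ := ht0 (E.s b)
          refine ⟨E.σ (C.p (τ j) w), ?_, ?_⟩
          · rw [hp, hττ, C.pidem E.nd]
          · rw [E.eqv, C.cen2 E.symm', hw, hs, hττ, E.ss]
        · intro h'; rw [h'] at h; exact absurd h (lt_irrefl _)
        · intro h'; exact absurd h (lt_asymm h')
  choose μ μ1 μ2 μ3 μ4 μ5 μ6 using hμ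
  -- the sum lies in `M`
  have hsumM : InM E (∑ j, μ j) := by
    have e0 : ∑ j, μ j = ∑ j ∈ Finset.univ.filter (fun j => τ j = j), μ j +
        (∑ j ∈ Finset.univ.filter (fun j => j < τ j), C.p j t0 +
        E.σ (∑ j ∈ Finset.univ.filter (fun j => j < τ j), C.p j t0)) := by
      rw [← Finset.sum_filter_add_sum_filter_not Finset.univ (fun j => τ j = j)]
      congr 1
      have e1 : Finset.univ.filter (fun j => ¬ τ j = j) =
          Finset.univ.filter (fun j => j < τ j) ∪ Finset.univ.filter (fun j => τ j < j) := by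
        ext j
        simp only [Finset.mem_filter, Finset.mem_univ, true_and, Finset.mem_union]
        constructor
        · intro h
          rcases lt_trichotomy j (τ j) with h' | h' | h'
          · exact Or.inl h'
          · exact absurd h'.symm h
          · exact Or.inr h'
        · rintro (h | h) h'
          · rw [h'] at h; exact lt_irrefl _ h
          · rw [h'] at h; exact lt_irrefl _ h
      have e2 : Disjoint (Finset.univ.filter (fun j => j < τ j))
          (Finset.univ.filter (fun j => τ j < j)) := by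
        rw [Finset.disjoint_left]
        intro j h h'
        simp only [Finset.mem_filter, Finset.mem_univ, true_and] at h h'
        exact lt_asymm h h'
      rw [e1, Finset.sum_union e2, map_sum]
      congr 1
      · refine Finset.sum_congr rfl fun j hj => ?_
        simp only [Finset.mem_filter, Finset.mem_univ, true_and] at hj
        exact μ5 j hj
      · refine Finset.sum_nbij' τ τ ?_ ?_ ?_ ?_ ?_
        · intro j hj
          simp only [Finset.mem_filter, Finset.mem_univ, true_and] at hj ⊢
          rwa [hττ]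
        · intro j hj
          simp only [Finset.mem_filter, Finset.mem_univ, true_and] at hj ⊢
          rwa [hττ]
        · intro j _; exact hττ j
        · intro j _; exact hττ j
        · intro j hj
          simp only [Finset.mem_filter, Finset.mem_univ, true_and] at hj
          exact μ6 j hj
    rw [e0]
    refine InM.add (InM.sum _ _ fun j hj => ?_) ?_
    · simp only [Finset.mem_filter, Finset.mem_univ, true_and] at hj
      exact μ4 j hj
    · rw [← E.resN]
      exact res_mem _
  obtain ⟨v, hv⟩ := H90 _ hsumM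
  -- projections
  set P1 : B' →ₗ[ZMod 2] B' := ∑ j ∈ J0ᶜ, C.π j with hP1
  set P0 : B' →ₗ[ZMod 2] B' := ∑ j ∈ J0, C.π j with hP0
  have P1a : ∀ b, P1 b = ∑ j ∈ J0ᶜ, C.π j b := fun b => by rw [hP1, LinearMap.sum_apply]
  have P0a : ∀ b, P0 b = ∑ j ∈ J0, C.π j b := fun b => by rw [hP0, LinearMap.sum_apply]
  have P01 : ∀ b, P0 b + P1 b = b := by
    intro b
    rw [P0a, P1a, Finset.sum_add_sum_compl, C.sum_π]
  have πP1 : ∀ j ∈ J0, ∀ b, C.π j (P1 b) = 0 := by
    intro j hj b
    rw [P1a, map_sum]
    refine Finset.sum_eq_zero fun i hi => C.orth j i ?_ b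
    rintro rfl
    exact (Finset.mem_compl.1 hi) hj
  have P0P1 : ∀ b, P0 (P1 b) = 0 := by
    intro b
    rw [P0a]
    exact Finset.sum_eq_zero fun j hj => πP1 j hj b
  -- `B₁`
  set B1 : Submodule (ZMod 2) B := LinearMap.range (E.cor ∘ₗ P1) with hB1
  -- totality of `res v` on the components outside `J0`
  have htot : ∀ b, ∃ w, (∀ j ∈ J0, C.p j w = 0) ∧ E.q' (E.res v) w = P1 b := by
    intro b
    have hw : ∀ j : Fin k, ∃ w, C.p j w = w ∧ (j ∉ J0 → E.q' (μ j) w = C.π j b) := by
      intro j
      by_cases hj : j ∈ J0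
      · exact ⟨0, map_zero _, fun h => absurd hj h⟩
      · obtain ⟨w, hw1, hw2⟩ := μ3 j hj b
        exact ⟨w, hw1, fun _ => hw2⟩
    choose w hw1 hw2 using hw
    refine ⟨∑ j ∈ J0ᶜ, w j, ?_, ?_⟩
    · intro j hj
      rw [map_sum]
      refine Finset.sum_eq_zero fun i hi => ?_
      rw [← hw1 i]
      apply C.porth E.nd
      rintro rfl
      exact (Finset.mem_compl.1 hi) hj
    · rw [hv, P1a, map_sum]
      refine Finset.sum_congr rfl fun j hj => ?_
      rw [map_sum, LinearMap.sum_apply, Finset.sum_eq_single j]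
      · exact hw2 j (Finset.mem_compl.1 hj)
      · intro i _ hij
        rw [← μ1 i, ← hw1 j]
        exact C.cross E.symm' i j hij _ _
      · intro h
        exact absurd (Finset.mem_univ j) h
  have hresP1 : ∀ w, E.q' (E.res v) w = P1 (E.q' (E.res v) w) := by
    intro w
    rw [P1a, hv, map_sum, LinearMap.sum_apply]
    have e1 : ∀ i, E.q' (μ i) w = C.π i (E.q' (μ i) w) := fun i => by rw [← C.cen, μ1]
    have e2 : ∀ j, C.π j (∑ i, E.q' (μ i) w) = C.π j (E.q' (μ j) w) := by
      intro j
      rw [map_sum, Finset.sum_eq_single j]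
      · intro i _ hij
        rw [e1 i, C.orth j i (Ne.symm hij)]
      · intro h
        exact absurd (Finset.mem_univ j) h
    have e3 : ∀ j, C.π j (∑ i, E.q' (μ i) w) = E.q' (μ j) w := fun j => by rw [e2, ← e1]
    rw [Finset.sum_congr rfl fun j _ => e3 j]
    rw [← Finset.sum_add_sum_compl J0]
    have e4 : ∑ i ∈ J0, E.q' (μ i) w = 0 := by
      refine Finset.sum_eq_zero fun i hi => ?_
      rw [μ2 i hi, map_zero, LinearMap.zero_apply]
    rw [e4, zero_add]
  -- elements of `Q_y`
  have hQ : ∀ y w, E.cor (E.q' (E.res y) w) ∈ LinearMap.range (E.q y) := fun y w =>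
    ⟨E.N w, (E.proj y w).symm⟩
  have hB0x : ∀ b, E.cor (P0 b) ∈ LinearMap.range (E.q E.x) := by
    intro b
    rw [P0a, map_sum]
    refine Submodule.sum_mem _ fun j hj => ?_
    obtain ⟨u, hu⟩ := E.kerres (C.π j b) (by rw [(hft j hj).sfix, ZModModule.add_self])
    exact ⟨u, hu.symm⟩
  have htop : ∀ S : Submodule (ZMod 2) B, B1 ≤ S → LinearMap.range (E.q E.x) ≤ S → S = ⊤ := by
    intro S h1 h2
    rw [eq_top_iff]
    intro b _
    obtain ⟨b', rfl⟩ := E.cor_surj b
    rw [← P01 b', map_add]
    exact S.add_mem (h2 (hB0x b')) (h1 ⟨b', rfl⟩)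
  -- intersections
  have hint : ∀ (y : V) (c : ℕ), B1 ≤ LinearMap.range (E.q y) →
      B1 ≤ LinearMap.range (E.q (y + E.x)) →
      rk E.q' (E.res y) ≤ Module.finrank (ZMod 2) (LinearMap.range P1) + c →
      Module.finrank (ZMod 2) (LinearMap.range (E.q y) ⊓ LinearMap.range (E.q (y + E.x)) :
        Submodule (ZMod 2) B) ≤ Module.finrank (ZMod 2) B1 + c := by
    intro y c h1 h2 h3
    have e1 := E.dform y
    unfold rk at e1 h3
    have e2 := Submodule.finrank_sup_add_finrank_inf_eq (LinearMap.range (E.q y))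
      (LinearMap.range (E.q (y + E.x)))
    have e3 : LinearMap.range (E.q y) ⊔ LinearMap.range (E.q (y + E.x)) = ⊤ :=
      htop _ (h1.trans le_sup_left) (range_le y)
    rw [e3, finrank_top] at e2
    -- `dim B ≤ b1 + dim P0`
    have e4 : Module.finrank (ZMod 2) B ≤ Module.finrank (ZMod 2) B1 +
        Module.finrank (ZMod 2) (LinearMap.range P0) := by
      have f1 : B1 ⊔ (LinearMap.range P0).map E.cor = ⊤ := by
        rw [eq_top_iff]
        intro b _
        obtain ⟨b', rfl⟩ := E.cor_surj b
        rw [← P01 b', map_add, add_comm]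
        exact Submodule.add_mem_sup ⟨b', rfl⟩ ⟨P0 b', ⟨b', rfl⟩, rfl⟩
      have f2 := Submodule.finrank_add_le_finrank_add_finrank B1 ((LinearMap.range P0).map E.cor)
      rw [f1, finrank_top] at f2
      have f3 := Submodule.finrank_map_le E.cor (LinearMap.range P0)
      omega
    have e5 : Module.finrank (ZMod 2) (LinearMap.range P1) +
        Module.finrank (ZMod 2) (LinearMap.range P0) ≤ Module.finrank (ZMod 2) B' := by
      have f1 : LinearMap.range P1 ⊓ LinearMap.range P0 = ⊥ := by
        rw [eq_bot_iff]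
        rintro b ⟨⟨b1, hb1⟩, ⟨b0, hb0⟩⟩
        rw [Submodule.mem_bot]
        have g1 : P0 b = 0 := by rw [← hb1, P0P1]
        have g2 : P0 b = b := by
          rw [← hb0, P0a (P0 b0), P0a b0]
          refine Finset.sum_congr rfl fun j hj => ?_
          rw [map_sum, Finset.sum_eq_single j]
          · exact C.idem j b0
          · intro i _ hij
            exact C.orth j i (Ne.symm hij) b0
          · intro h
            exact absurd hj h
        rw [← g2, g1]
      have f2 := Submodule.finrank_sup_add_finrank_inf_eq (LinearMap.range P1) (LinearMap.range P0)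
      rw [f1, finrank_bot, add_zero] at f2
      rw [← f2]
      exact Submodule.finrank_le _
    omega
  have hrange0 : LinearMap.range (E.q' (E.res v)) ≤ LinearMap.range P1 := by
    rintro _ ⟨w, rfl⟩
    exact ⟨_, (hresP1 w).symm⟩
  -- the elements with the same restriction as `v`
  have hsame : ∀ y, E.res y = E.res v → B1 ≤ LinearMap.range (E.q y) := by
    rintro y hy _ ⟨b, rfl⟩
    obtain ⟨w, _, hw⟩ := htot b
    rw [LinearMap.comp_apply, ← hw, ← hy]
    exact hQ y w
  have hsame2 : ∀ y, E.res y = E.res v →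
      (LinearMap.range (E.q y) ⊓ LinearMap.range (E.q (y + E.x)) : Submodule (ZMod 2) B) = B1 := by
    intro y hy
    have hyx : E.res (y + E.x) = E.res v := by rw [map_add, E.resx, add_zero, hy]
    symm
    apply Submodule.eq_of_le_of_finrank_le (le_inf (hsame y hy) (hsame _ hyx))
    have := hint y 0 (hsame y hy) (hsame _ hyx) (by
      unfold rk
      rw [hy, add_zero]
      exact Submodule.finrank_mono hrange0)
    rwa [add_zero] at this
  -- for `u` whose restriction has no component in `J0`
  have hq1 : ∀ u, (∀ j ∈ J0, C.p j (E.res u) = 0) → E.q v u ∈ B1 := by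
    intro u hu
    rw [← hsame2 v rfl]
    refine ⟨LinearMap.mem_range_self _ u, ?_⟩
    have e1 : E.q v u = E.q (v + E.x) u + E.q E.x u := by
      rw [map_add, LinearMap.add_apply, add_assoc, ZModModule.add_self, add_zero]
    have e2 : E.q E.x u ∈ B1 := by
      refine ⟨E.q' (E.res u) E.w0, ?_⟩
      rw [LinearMap.comp_apply, E.normx]
      congr 1
      have e3 : P0 (E.q' (E.res u) E.w0) = 0 := by
        rw [P0a]
        refine Finset.sum_eq_zero fun j hj => ?_
        rw [← C.cen, hu j hj, map_zero, LinearMap.zero_apply]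
      have := P01 (E.q' (E.res u) E.w0)
      rwa [e3, zero_add] at this
    have hvx : E.res (v + E.x) = E.res v := by rw [map_add, E.resx, add_zero]
    rw [e1]
    exact Submodule.add_mem _ (LinearMap.mem_range_self _ u) (hsame _ hvx e2)
  -- the elements `β d`
  set β : Fin k → V' → B := fun j d => E.cor (E.q' (ft j).2 d) with hβ
  have hβ1 : ∀ j ∈ J0, ∀ d, C.p j d = d → β j d ∈ B1 → (ft j).1 d = 0 → d = 0 := by
    intro j hj d hd hmem hfd
    obtain ⟨b, hb⟩ := hmem
    have Z := hft j hj
    rw [LinearMap.comp_apply] at hb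
    have e1 : E.cor (P1 b + E.q' (ft j).2 d) = 0 := by
      rw [map_add, hb, ZModModule.add_self]
    have e2 := graded C hs Z.fix e1
    rw [map_add, πP1 j hj, zero_add] at e2
    have e3 := Z.inj _ e2
    rw [← C.cen, Z.h2] at e3
    exact fan_zero C E.symm' E.nd j Z.h1 Z.h2 Z.h4 hd hfd e3
  have hβx : ∀ j ∈ J0, ∀ d, C.p j d = d → (ft j).1 d = 0 → ∀ u, E.res u = d →
      E.q E.x u = β j d := by
    intro j hj d hd hfd u hu
    have Z := hft j hj
    rw [E.normx, hu, E.symm', S1_.q_t_of C Z.h1 Z.h2 Z.h3 Z.h4 hd hfd Z.w0]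
  -- `q v u ∈ {0, β d} + B1`
  have hline : ∀ j ∈ J0, ∀ d, C.p j d = d → (ft j).1 d = 0 → ∀ u, E.res u = d →
      E.q v u ∈ B1 ∨ E.q v u + β j d ∈ B1 := by
    intro j hj d hd hfd u hu
    have Z := hft j hj
    by_cases hd0 : d = 0
    · left
      apply hq1
      intro i _
      rw [hu, hd0, map_zero]
    have hres : E.res (v + u) = E.res v + d := by rw [map_add, hu]
    have hresx : E.res (v + u + E.x) = E.res v + d := by rw [map_add, E.resx, add_zero, hres]
    have hvt : E.q' (E.res v) (ft j).2 = 0 := by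
      rw [hv, map_sum, LinearMap.sum_apply]
      refine Finset.sum_eq_zero fun i _ => ?_
      by_cases hij : i = j
      · rw [hij, μ2 j hj, map_zero, LinearMap.zero_apply]
      · rw [← μ1 i, ← Z.h2]
        exact C.cross E.symm' i j hij _ _
    have hmemβ : ∀ y, E.res y = E.res v + d → β j d ∈ LinearMap.range (E.q y) := by
      intro y hy
      have e1 : β j d = E.cor (E.q' (E.res y) (ft j).2) := by
        rw [hy, map_add, LinearMap.add_apply, hvt, zero_add, E.symm']
      rw [e1]
      exact hQ y _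
    have hmemB : ∀ y, E.res y = E.res v + d → B1 ≤ LinearMap.range (E.q y) := by
      rintro y hy _ ⟨b, rfl⟩
      obtain ⟨w, hw1, hw2⟩ := htot b
      have e1 : E.q' (E.res y) w = P1 b := by
        rw [hy, map_add, LinearMap.add_apply, hw2]
        have : E.q' d w = 0 := by
          rw [← hd, C.cen, ← C.cen' E.symm', hw1 j hj, map_zero]
        rw [this, add_zero]
      rw [LinearMap.comp_apply, ← e1]
      exact hQ y w
    have hrk : rk E.q' (E.res (v + u)) ≤ Module.finrank (ZMod 2) (LinearMap.range P1) + 1 := by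
      unfold rk
      have e1 : LinearMap.range (E.q' (E.res (v + u))) ≤
          LinearMap.range P1 ⊔ Submodule.span (ZMod 2) {E.q' (ft j).2 d} := by
        rintro _ ⟨w, rfl⟩
        rw [hres, map_add, LinearMap.add_apply]
        apply Submodule.add_mem_sup
        · exact hrange0 (LinearMap.mem_range_self _ w)
        · rw [S1_.D_apply C Z.h1 Z.h2 Z.h3 Z.h4 hd hfd]
          exact Submodule.smul_mem _ _ (Submodule.mem_span_singleton_self _)
      refine (Submodule.finrank_mono e1).trans ?_
      refine (Submodule.finrank_add_le_finrank_add_finrank _ _).trans ?_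
      exact Nat.add_le_add_left ((finrank_span_le_card _).trans (by simp)) _
    have hI := hint (v + u) 1 (hmemB _ hres) (hmemB _ hresx) hrk
    -- `B1 + ⟨β⟩` is the intersection
    have hβn : β j d ∉ B1 := fun h => hd0 (hβ1 j hj d hd h hfd)
    have hle : B1 ⊔ Submodule.span (ZMod 2) {β j d} ≤
        (LinearMap.range (E.q (v + u)) ⊓ LinearMap.range (E.q (v + u + E.x)) :
          Submodule (ZMod 2) B) := by
      apply sup_le (le_inf (hmemB _ hres) (hmemB _ hresx))
      rw [Submodule.span_singleton_le_iff_mem]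
      exact ⟨hmemβ _ hres, hmemβ _ hresx⟩
    have hfr : Module.finrank (ZMod 2) B1 + 1 ≤
        Module.finrank (ZMod 2) (B1 ⊔ Submodule.span (ZMod 2) {β j d} : Submodule (ZMod 2) B) := by
      apply Submodule.finrank_lt_finrank_of_lt
      refine lt_of_le_of_ne le_sup_left fun h => hβn ?_
      rw [h]
      exact (le_sup_right : _ ≤ B1 ⊔ Submodule.span (ZMod 2) {β j d})
        (Submodule.mem_span_singleton_self _)
    have heq := Submodule.eq_of_le_of_finrank_le hle (hI.trans hfr)
    have hmem : E.q v u ∈ (LinearMap.range (E.q (v + u)) ⊓ LinearMap.range (E.q (v + u + E.x)) :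
        Submodule (ZMod 2) B) := by
      constructor
      · refine ⟨u, ?_⟩
        rw [map_add, LinearMap.add_apply, E.alt, add_zero]
      · have e1 : E.q v u = E.q (v + u + E.x) u + β j d := by
          rw [map_add, map_add, LinearMap.add_apply, LinearMap.add_apply, E.alt, add_zero,
            hβx j hj d hd hfd u hu, add_assoc, ZModModule.add_self, add_zero]
        rw [e1]
        exact Submodule.add_mem _ (LinearMap.mem_range_self _ u) (hmemβ _ hresx)
    rw [← heq] at hmem
    obtain ⟨a, ha, c, hc, hac⟩ := Submodule.mem_sup.1 hmem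
    obtain ⟨r, rfl⟩ := Submodule.mem_span_singleton.1 hc
    rcases zm r with hr | hr
    · left
      rw [← hac, hr, zero_smul, add_zero]
      exact ha
    · right
      rw [← hac, hr, one_smul, add_assoc, ZModModule.add_self, add_zero]
      exact ha
  -- lifts of elements of `D_j`
  have hlift : ∀ j ∈ J0, ∀ d, C.p j d = d → (ft j).1 d = 0 → ∃ u, E.res u = d := by
    intro j hj d hd hfd
    exact H90 d ((hft j hj).hM d hd hfd)
  -- the scalars
  have hε : ∀ j ∈ J0, (∀ d, C.p j d = d → (ft j).1 d = 0 → ∀ u, E.res u = d → E.q v u ∈ B1) ∨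
      (∀ d, C.p j d = d → (ft j).1 d = 0 → ∀ u, E.res u = d → E.q v u + β j d ∈ B1) := by
    intro j hj
    by_contra hcon
    push Not at hcon
    obtain ⟨⟨d₂, a1, a2, u₂, a3, a4⟩, ⟨d₁, b1, b2, u₁, b3, b4⟩⟩ := hcon
    have c1 : E.q v u₂ + β j d₂ ∈ B1 := (hline j hj d₂ a1 a2 u₂ a3).resolve_left a4
    have c2 : E.q v u₁ ∈ B1 := (hline j hj d₁ b1 b2 u₁ b3).resolve_right b4
    have c3 : C.p j (d₁ + d₂) = d₁ + d₂ := by rw [map_add, a1, b1]
    have c4 : (ft j).1 (d₁ + d₂) = 0 := by rw [map_add, a2, b2, add_zero]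
    have c5 : E.res (u₁ + u₂) = d₁ + d₂ := by rw [map_add, a3, b3]
    rcases hline j hj _ c3 c4 _ c5 with h | h
    · rw [map_add] at h
      apply a4
      have := B1.add_mem c2 h
      rwa [add_add_self] at this
    · have e1 : β j (d₁ + d₂) = β j d₁ + β j d₂ := by
        simp only [hβ, map_add]
      rw [map_add, e1] at h
      apply b4
      have h' := B1.add_mem h c1
      have e2 : E.q v u₁ + E.q v u₂ + (β j d₁ + β j d₂) + (E.q v u₂ + β j d₂) =
          E.q v u₁ + β j d₁ + ((E.q v u₂ + E.q v u₂) + (β j d₂ + β j d₂)) := by abel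
      rw [e2, ZModModule.add_self, ZModModule.add_self, add_zero, add_zero] at h'
      exact h'
  -- the subset with scalar one
  set J1 : Finset (Fin k) := J0.filter (fun j => ∀ d, C.p j d = d → (ft j).1 d = 0 →
    ∀ u, E.res u = d → E.q v u + β j d ∈ B1) with hJ1
  set v' : V := v + ∑ j ∈ J1, E.N (ft j).2 with hv'
  have hresv' : E.res v' = E.res v := by
    rw [hv', map_add, map_sum]
    have : ∑ j ∈ J1, E.res (E.N (ft j).2) = 0 := by
      refine Finset.sum_eq_zero fun j hj => ?_
      rw [E.resN, (hft j (Finset.mem_filter.1 hj).1).σt, ZModModule.add_self]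
    rw [this, add_zero]
  have hqv' : ∀ u, E.q v' u ∈ B1 := by
    intro u
    -- components of `res u`
    have hcomp : ∀ j ∈ J0, (ft j).1 (C.p j (E.res u)) = 0 := by
      intro j hj
      rw [(hft j hj).h3, (hft j hj).res0]
    have hl : ∀ j : Fin k, ∃ g, j ∈ J0 → E.res g = C.p j (E.res u) := by
      intro j
      by_cases hj : j ∈ J0
      · obtain ⟨g, hg⟩ := hlift j hj _ (C.pidem E.nd j (E.res u)) (hcomp j hj)
        exact ⟨g, fun _ => hg⟩
      · exact ⟨0, fun h => absurd h hj⟩
    choose g hg using hl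
    have hu1 : E.q v (u + ∑ j ∈ J0, g j) ∈ B1 := by
      apply hq1
      intro j hj
      rw [map_add, map_add, map_sum, map_sum, Finset.sum_eq_single j]
      · rw [hg j hj, C.pidem E.nd, ZModModule.add_self]
      · intro i hi hij
        rw [hg i hi]
        exact C.porth E.nd j i (Ne.symm hij) _
      · intro h
        exact absurd hj h
    have e1 : E.q v u = E.q v (u + ∑ j ∈ J0, g j) + ∑ j ∈ J0, E.q v (g j) := by
      rw [map_add, map_sum, add_assoc, ZModModule.add_self, add_zero]
    have e2 : ∀ j ∈ J1, E.q (E.N (ft j).2) u = β j (C.p j (E.res u)) := by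
      intro j hj
      have hj0 := (Finset.mem_filter.1 hj).1
      have Z := hft j hj0
      rw [E.symm, ← E.proj, E.symm']
      simp only [hβ]
      congr 1
      rw [C.cen' E.symm', ← C.cen, Z.h2]
    have e3 : E.q v' u = E.q v (u + ∑ j ∈ J0, g j) + (∑ j ∈ J0, E.q v (g j) +
        ∑ j ∈ J1, β j (C.p j (E.res u))) := by
      rw [hv', map_add, LinearMap.add_apply, e1, map_sum, LinearMap.sum_apply,
        Finset.sum_congr rfl e2, add_assoc]
    rw [e3]
    apply B1.add_mem hu1
    have e4 : ∑ j ∈ J1, β j (C.p j (E.res u)) = ∑ j ∈ J0,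
        if (∀ d, C.p j d = d → (ft j).1 d = 0 → ∀ u, E.res u = d → E.q v u + β j d ∈ B1)
          then β j (C.p j (E.res u)) else 0 := by
      rw [hJ1, Finset.sum_filter]
    rw [e4, ← Finset.sum_add_distrib]
    refine Submodule.sum_mem _ fun j hj => ?_
    split_ifs with h
    · exact h _ (C.pidem E.nd j _) (hcomp j hj) _ (hg j hj)
    · rw [add_zero]
      rcases hε j hj with h' | h'
      · exact h' _ (C.pidem E.nd j _) (hcomp j hj) _ (hg j hj)
      · exact absurd h' h
  -- conclusion
  refine ⟨v' + E.x, ?_⟩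
  have hfin : LinearMap.range (E.q (v' + E.x)) = ⊤ := by
    have h1 : B1 ≤ LinearMap.range (E.q (v' + E.x)) :=
      hsame _ (by rw [map_add, E.resx, add_zero, hresv'])
    apply htop _ h1
    rintro _ ⟨u, rfl⟩
    have e1 : E.q E.x u = E.q (v' + E.x) u + E.q v' u := by
      rw [map_add, LinearMap.add_apply]
      have : E.q v' u + E.q E.x u + E.q v' u = E.q E.x u + (E.q v' u + E.q v' u) := by abel
      rw [this, ZModModule.add_self, add_zero]
    rw [e1]
    exact Submodule.add_mem _ (LinearMap.mem_range_self _ u) (h1 (hqv' u))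
  intro b
  have : b ∈ LinearMap.range (E.q (v' + E.x)) := by rw [hfin]; trivial
  obtain ⟨u, hu⟩ := this
  exact ⟨u, hu⟩

end Pool.Agent.DSC
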