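import Pool.Agent.DSC.DEC
import Pool.Agent.DSC.DFM
import Pool.Agent.DSC.RED
import Pool.Agent.DSC.CEN
import Pool.Agent.DSC.S1
import Pool.Agent.DSC.S2

/-!
DSC: the descent theorem.
-/

set_option autoImplicit false

namespace Pool.Agent.DSC

/-- THE DESCENT: a total element of `K = F(√x)` gives a total element of `F`. -/
theorem dsc : Stmt_DSC :=
  dsc_of dec_proof (red_proof dfm_proof) cen_proof s1_proof s2_proof

end Pool.Agent.DSC
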