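import Pool.Agent.DSC.Defs

/-!
Basic facts on component decompositions.
-/

set_option autoImplicit false

namespace Pool.Agent.DSC

open CommonSlot

namespace Dec
variable {V B : Type} [AddCommGroup V] [Module (ZMod 2) V] [AddCommGroup B] [Module (ZMod 2) B]
variable {q : V →ₗ[ZMod 2] V →ₗ[ZMod 2] B} {k : ℕ}

theorem idem (C : Dec q k) (i : Fin k) (b : B) : C.π i (C.π i b) = C.π i b := by
  conv_rhs => rw [← C.sum_π b]
  rw [map_sum, Finset.sum_eq_single i]
  · intro j _ hj
    exact C.orth i j (Ne.symm hj) b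
  · intro h
    exact absurd (Finset.mem_univ i) h

theorem porth (C : Dec q k) (nd : ∀ a, (∀ b, q a b = 0) → a = 0) (i j : Fin k) (h : i ≠ j)
    (v : V) : C.p i (C.p j v) = 0 := by
  apply nd
  intro w
  rw [C.cen, C.cen, C.orth i j h]

theorem pidem (C : Dec q k) (nd : ∀ a, (∀ b, q a b = 0) → a = 0) (i : Fin k)
    (v : V) : C.p i (C.p i v) = C.p i v := by
  conv_rhs => rw [← C.sum_p v]
  rw [map_sum, Finset.sum_eq_single i]
  · intro j _ hj
    exact C.porth nd i j (Ne.symm hj) v
  · intro h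
    exact absurd (Finset.mem_univ i) h

theorem cen' (C : Dec q k) (symm : ∀ v w, q v w = q w v) (j : Fin k) (v w : V) :
    q v (C.p j w) = C.π j (q v w) := by
  rw [symm, C.cen, symm]

theorem cen2 (C : Dec q k) (symm : ∀ v w, q v w = q w v) (j : Fin k) (v w : V) :
    q (C.p j v) (C.p j w) = C.π j (q v w) := by
  rw [C.cen, C.cen' symm, C.idem]

theorem cross (C : Dec q k) (symm : ∀ v w, q v w = q w v) (i j : Fin k) (h : i ≠ j) (v w : V) :
    q (C.p i v) (C.p j w) = 0 := by
  rw [C.cen, C.cen' symm, C.orth i j h]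

end Dec

section
variable {V B : Type} [AddCommGroup V] [Module (ZMod 2) V] [AddCommGroup B] [Module (ZMod 2) B]
variable {q : V →ₗ[ZMod 2] V →ₗ[ZMod 2] B} {k : ℕ}

/-- an element of `D` orthogonal to `t` vanishes -/
theorem fan_zero (C : Dec q k) (symm : ∀ v w, q v w = q w v)
    (nd : ∀ a, (∀ b, q a b = 0) → a = 0) (j : Fin k)
    {τ : V →ₗ[ZMod 2] ZMod 2} {t : V} (h1 : τ t = 1) (h2 : C.p j t = t)
    (h4 : ∀ d d', τ d = 0 → τ d' = 0 → q (C.p j d) (C.p j d') = 0)
    {u : V} (hu : C.p j u = u) (hτ : τ u = 0) (hq : q t u = 0) : u = 0 := by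
  apply nd
  intro w
  have e : q u w = q (C.p j u) (C.p j w) := by
    rw [C.cen2 symm, ← C.cen, hu]
  rcases zm (τ w) with hw | hw
  · rw [e, h4 u w hτ hw]
  · have hw' : τ (w + t) = 0 := by rw [map_add, hw, h1]; decide
    have e2 : w = (w + t) + t := by rw [add_assoc, ZModModule.add_self, add_zero]
    rw [e, e2, map_add (C.p j), map_add (q (C.p j u)), h4 u _ hτ hw', hu, h2, symm u t, hq,
      add_zero]

/-- two centroid pairs commute (second components) -/
theorem cen_comm (symm : ∀ v w, q v w = q w v) (hf : ∃ t, Full q t)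
    {P P' : V →ₗ[ZMod 2] V} {G G' : B →ₗ[ZMod 2] B}
    (h : ∀ v w, q (P v) w = G (q v w)) (h' : ∀ v w, q (P' v) w = G' (q v w)) (b : B) :
    G (G' b) = G' (G b) := by
  obtain ⟨t, ht⟩ := hf
  obtain ⟨v, rfl⟩ := ht b
  calc G (G' (q t v)) = G (q (P' t) v) := by rw [h']
    _ = G (q v (P' t)) := by rw [symm]
    _ = q (P v) (P' t) := by rw [h]
    _ = q (P' t) (P v) := by rw [symm]
    _ = G' (q t (P v)) := by rw [h']
    _ = G' (q (P v) t) := by rw [symm]
    _ = G' (G (q v t)) := by rw [h]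
    _ = _ := by rw [symm v t]

/-- a centroid pair is a scalar on every component -/
theorem cen_scalar (C : Dec q k) (symm : ∀ v w, q v w = q w v) (alt : ∀ v, q v v = 0)
    (nd : ∀ a, (∀ b, q a b = 0) → a = 0) (hf : ∃ t, Full q t)
    {P : V →ₗ[ZMod 2] V} {G : B →ₗ[ZMod 2] B}
    (h : ∀ v w, q (P v) w = G (q v w)) (j : Fin k) :
    (∀ b, G (C.π j b) = 0) ∨ (∀ b, G (C.π j b) = C.π j b) := by
  rcases C.typ j with ⟨c, hc0, hc1, hc2⟩ | ⟨τ, t, h1, h2, h3, h4, h5, h6⟩
  · have e : G c = C.π j (G c) := by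
      rw [← cen_comm symm hf h (C.cen j), hc1]
    rcases hc2 (G c) with hz | hz
    · left
      intro b
      rcases hc2 b with hb | hb
      · rw [hb, map_zero]
      · rw [hb, e, hz]
    · right
      intro b
      rcases hc2 b with hb | hb
      · rw [hb, map_zero]
      · rw [hb, e, hz]
  · have hpt : C.p j (P t) = P t := by
      apply eq_of_add_eq_zero'
      apply nd
      intro w
      rw [map_add, LinearMap.add_apply, C.cen, h, ← cen_comm symm hf h (C.cen j), ← C.cen j t w,
        h2, ZModModule.add_self]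
    have hqt : q t (P t) = 0 := by rw [symm, h, alt, map_zero]
    have key : P t = 0 ∨ P t = t := by
      rcases zm (τ (P t)) with hz | hz
      · left
        exact fan_zero C symm nd j h1 h2 h4 hpt hz hqt
      · right
        apply eq_of_add_eq_zero'
        apply fan_zero C symm nd j h1 h2 h4
        · rw [map_add, hpt, h2]
        · rw [map_add, hz, h1]; decide
        · rw [map_add, hqt, alt, add_zero]
    rcases key with hP | hP
    · left
      intro b
      obtain ⟨d, _, _, hd⟩ := h5 b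
      rw [← hd, ← h, hP, map_zero, LinearMap.zero_apply]
    · right
      intro b
      obtain ⟨d, _, _, hd⟩ := h5 b
      rw [← hd, ← h, hP]

/-- every component is nonzero -/
theorem comp_ne (C : Dec q k) (symm : ∀ v w, q v w = q w v)
    (nd : ∀ a, (∀ b, q a b = 0) → a = 0) (j : Fin k) : ∃ b, C.π j b ≠ 0 := by
  rcases C.typ j with ⟨c, hc0, hc1, hc2⟩ | ⟨τ, t, h1, h2, h3, h4, h5, d₁, d₂, g1, g2, g3, g4, g5, g6, g7⟩
  · exact ⟨c, by rwa [hc1]⟩
  · refine ⟨q t d₁, ?_⟩
    rw [← C.cen, h2]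
    intro h0
    exact g5 (fan_zero C symm nd j h1 h2 h4 g3 g1 h0)

end

end Pool.Agent.DSC
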