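import Pool.Agent.DSC.Defs
import Pool.Agent.ETB.Comp

/-!
Component form: a nondegenerate linked alternating structure with a full element is a product of
local components and components `D[t]`.
-/

set_option autoImplicit false

namespace Pool.Agent.DSC

open CommonSlot QS

theorem isLoc_of {B : Type} [AddCommGroup B] [Module (ZMod 2) B] {π : B →ₗ[ZMod 2] B}
    (h : ETB.IsLoc π) : IsLoc π := h

theorem isFan_of {V B : Type} [AddCommGroup V] [Module (ZMod 2) V] [AddCommGroup B]
    [Module (ZMod 2) B] {q : V →ₗ[ZMod 2] V →ₗ[ZMod 2] B} {p : V →ₗ[ZMod 2] V}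
    {π : B →ₗ[ZMod 2] B} (hpp : ∀ v, p (p v) = p v) (h : ETB.IsFan q p π) : IsFan q p π := by
  obtain ⟨t, D, a1, a2, a3, a4, a5, a6, a7, a8⟩ := h
  have ht : t ∉ D.comap p := by
    intro h
    rw [Submodule.mem_comap, a1] at h
    exact a2 h
  obtain ⟨τ, h1, h2⟩ := Submodule.exists_le_ker_of_notMem ht
  have zo : ∀ z : ZMod 2, z = 0 ∨ z = 1 := by decide
  have ht1 : τ t = 1 := (zo _).resolve_left h1
  have hD : ∀ d ∈ D, τ d = 0 := by
    intro d hd
    apply LinearMap.mem_ker.1
    apply h2
    rw [Submodule.mem_comap, a3 d hd]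
    exact hd
  have hD' : ∀ v, τ v = 0 → p v ∈ D := by
    intro v hv
    rcases a4 v with h | h
    · exact h
    · exfalso
      have : v + t ∈ LinearMap.ker τ := by
        apply h2
        rw [Submodule.mem_comap, map_add, a1]
        exact h
      rw [LinearMap.mem_ker, map_add, hv, ht1, zero_add] at this
      exact absurd this (by decide)
  refine ⟨τ, t, ht1, a1, ?_, ?_, ?_, ?_⟩
  · intro v
    rcases zo (τ v) with h | h
    · rw [h]
      exact hD _ (hD' v h)
    · rw [h]
      rcases zo (τ (p v)) with h' | h'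
      · exfalso
        have h3 := hD' _ h'
        rw [hpp] at h3
        have h4 : v ∈ LinearMap.ker τ := h2 h3
        rw [LinearMap.mem_ker, h] at h4
        exact absurd h4 (by decide)
      · exact h'
  · intro d d' hd hd'
    exact a5 _ (hD' d hd) _ (hD' d' hd')
  · intro b
    obtain ⟨d, hd, h⟩ := a7 b
    exact ⟨d, hD d hd, a3 d hd, h⟩
  · obtain ⟨d₁, hd₁⟩ : ∃ d : D, d ≠ 0 := by
      have : Nontrivial D := Module.nontrivial_of_finrank_pos (R := ZMod 2) (by omega)
      exact exists_ne 0
    obtain ⟨d₂, hd₂⟩ : ∃ d : D, d ∉ Submodule.span (ZMod 2) {d₁} := by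
      by_contra hc
      push Not at hc
      have : Submodule.span (ZMod 2) {d₁} = ⊤ := by
        rw [eq_top_iff]
        intro d _
        exact hc d
      have h5 := finrank_span_singleton (K := ZMod 2) hd₁
      rw [this, finrank_top] at h5
      omega
    refine ⟨d₁, d₂, hD _ d₁.2, hD _ d₂.2, a3 _ d₁.2, a3 _ d₂.2, fun h => hd₁ (Subtype.ext h),
      fun h => ?_, fun h => ?_⟩
    · apply hd₂
      rw [show d₂ = 0 from Subtype.ext h]
      exact Submodule.zero_mem _
    · apply hd₂
      rw [show d₂ = d₁ from (Subtype.ext h).symm]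
      exact Submodule.mem_span_singleton_self _

theorem dec_proof : Stmt_DEC := by
  intro V B _ _ _ _ _ q hq hnd hx
  obtain ⟨n, pV, pB, c⟩ := ETB.hasComp hq hx hnd
  refine ⟨n, ⟨⟨pV, pB, c.comm, c.sumV, c.sumB, ?_, ?_⟩⟩⟩
  · intro i j hij b
    rw [c.mulB, if_neg hij]
  · intro j
    rcases c.typ j with h | h
    · exact Or.inl (isLoc_of h)
    · refine Or.inr (isFan_of ?_ h)
      intro v
      rw [c.mulV, if_pos rfl]

end Pool.Agent.DSC
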