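import Pool.Agent.DSC.Basic

/-!
Common lemmas for the modules S1 and S2: the space `M = {m : N m ∈ rad}`.
-/

set_option autoImplicit false

namespace Pool.Agent.DSC

open CommonSlot

section
variable {V B V' B' : Type} [AddCommGroup V] [Module (ZMod 2) V] [AddCommGroup B]
  [Module (ZMod 2) B] [AddCommGroup V'] [Module (ZMod 2) V'] [AddCommGroup B']
  [Module (ZMod 2) B']

/-- `N m` lies in the radical -/
def InM (E : RExt V B V' B') (m : V') : Prop := ∀ v, E.cor (E.q' (E.res v) m) = 0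

variable {E : RExt V B V' B'}

theorem InM.add {m m' : V'} (h : InM E m) (h' : InM E m') : InM E (m + m') := fun v => by
  rw [map_add, map_add, h v, h' v, add_zero]

theorem InM.qN {m : V'} (hm : InM E m) (u : V) : E.q (E.N m) u = 0 := by
  rw [E.symm, ← E.proj]
  exact hm u

theorem InM.fix {m : V'} (hm : InM E m) : E.σ m = m := by
  have h := E.resrad (E.N m) hm.qN
  rw [E.resN] at h
  exact (eq_of_add_eq_zero' h).symm

theorem res_mem (v : V) : InM E (E.res v) := fun u => E.corres u v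

theorem qNw0 (u : V) : E.q (E.N E.w0) u = E.q E.x u := by
  rw [E.symm, ← E.proj, ← E.normx]

theorem cor_s (b : B') : E.cor (E.s b) = E.cor b := by
  have h := E.corker b
  rw [map_add] at h
  exact (eq_of_add_eq_zero' h).symm

/-- Rosset-Tate for `m ∈ M` -/
theorem InM.rt {m : V'} (hm : InM E m) (y : V') : ∃ b, E.cor (E.q' m y) = E.q (E.N y) b := by
  obtain ⟨a, b, h⟩ := E.rt m y
  exact ⟨b, by rw [h, hm.qN, zero_add]⟩

theorem InM.iso {m m' : V'} (hm : InM E m) (hm' : InM E m') : E.cor (E.q' m m') = 0 := by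
  obtain ⟨b, h⟩ := hm.rt m'
  rw [h, hm'.qN]

/-- the dimension formula for `ρ` with `res ρ = 0` -/
theorem rk_rho {ρ : V} (hρ : E.res ρ = 0) :
    rk E.q ρ + rk E.q (ρ + E.x) = rk E.q E.x := by
  have h1 := E.dform ρ
  have h2 := E.dform 0
  have h3 : rk E.q' (E.res ρ) = rk E.q' (E.res 0) := by rw [hρ, map_zero]
  have h4 : rk E.q 0 = 0 := by
    unfold rk
    rw [map_zero, LinearMap.range_zero, finrank_bot]
  rw [zero_add, h4] at h2
  rw [h3] at h1
  omega

theorem range_le (ρ : V) : LinearMap.range (E.q E.x) ≤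
    LinearMap.range (E.q ρ) ⊔ LinearMap.range (E.q (ρ + E.x)) := by
  rintro _ ⟨v, rfl⟩
  have e : E.q E.x v = E.q ρ v + E.q (ρ + E.x) v := by
    rw [map_add, LinearMap.add_apply, add_add_self]
  rw [e]
  exact Submodule.add_mem_sup (LinearMap.mem_range_self _ v) (LinearMap.mem_range_self _ v)

/-- `Q_ρ ∩ Q_{ρ+x} = 0` for `res ρ = 0` -/
theorem disj [Finite B] {ρ : V} (hρ : E.res ρ = 0) {u v : V}
    (h : E.q ρ u = E.q (ρ + E.x) v) : E.q ρ u = 0 := by
  have h1 := rk_rho (E := E) hρ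
  unfold rk at h1
  have h2 := Submodule.finrank_sup_add_finrank_inf_eq (LinearMap.range (E.q ρ))
    (LinearMap.range (E.q (ρ + E.x)))
  have h3 := Submodule.finrank_mono (range_le (E := E) ρ)
  have h4 : Module.finrank (ZMod 2)
      (LinearMap.range (E.q ρ) ⊓ LinearMap.range (E.q (ρ + E.x)) : Submodule (ZMod 2) B) = 0 := by
    omega
  have h5 := Submodule.finrank_eq_zero.1 h4
  have h6 : E.q ρ u ∈
      (LinearMap.range (E.q ρ) ⊓ LinearMap.range (E.q (ρ + E.x)) : Submodule (ZMod 2) B) := by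
    refine ⟨LinearMap.mem_range_self _ u, ?_⟩
    rw [h]
    exact LinearMap.mem_range_self _ v
  rw [h5] at h6
  exact (Submodule.mem_bot _).1 h6

/-- `m ∈ M` with `cor (w0 ∪ m) = 0` is orthogonal to the fixed elements -/
theorem InM.orth [Finite B] {m y : V'} (hm : InM E m) (h0 : E.cor (E.q' E.w0 m) = 0)
    (hy : E.σ y = y) : E.cor (E.q' m y) = 0 := by
  obtain ⟨b, hb⟩ := hm.rt y
  obtain ⟨b', hb'⟩ := hm.rt (y + E.w0)
  have hρ : E.res (E.N y) = 0 := by rw [E.resN, hy, ZModModule.add_self]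
  have e1 : E.q (E.N (y + E.w0)) b' = E.q (E.N y + E.x) b' := by
    rw [map_add, map_add, LinearMap.add_apply, qNw0, map_add, LinearMap.add_apply]
  have e2 : E.cor (E.q' m (y + E.w0)) = E.cor (E.q' m y) := by
    rw [map_add, map_add, E.symm' m E.w0, h0, add_zero]
  rw [hb]
  apply disj hρ (v := b')
  rw [← e1, ← hb', e2, hb]

section graded
variable {k : ℕ} (C : Dec E.q' k) {τ : Fin k → Fin k}

/-- the kernel of `cor` is graded -/
theorem graded (hs : ∀ j b, E.s (C.π j b) = C.π (τ j) (E.s b)) {j : Fin k} (hj : τ j = j) {b : B'}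
    (hb : E.cor b = 0) : E.cor (C.π j b) = 0 := by
  obtain ⟨c, rfl⟩ := E.kercor b hb
  have : C.π j (E.s c) = E.s (C.π j c) := by rw [hs, hj]
  rw [map_add, this]
  exact E.corker _

theorem InM.comp (hs : ∀ j b, E.s (C.π j b) = C.π (τ j) (E.s b)) {j : Fin k} (hj : τ j = j)
    {m : V'} (hm : InM E m) : InM E (C.p j m) := fun v => by
  rw [C.cen' E.symm']
  exact graded C hs hj (hm v)

end graded

/-- norms from `K` as elements `(1+σ)c` -/
theorem mem_one_add {m : V'} (h : ∃ c, m = c + E.σ c) : ∃ v, E.res v = m := by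
  obtain ⟨c, rfl⟩ := h
  exact ⟨E.N c, E.resN c⟩

end

end Pool.Agent.DSC
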